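import Pool.Agent.H32R3.PV.Wal

set_option autoImplicit false
set_option maxHeartbeats 4000000

namespace Pool.Agent.H32R3.PV

open Finset MeasureTheory

lemma int_exp_bound {D : ℝ} (hD : 0 < D) : ∫ r in (0:ℝ)..1, r * Real.exp (-(r * D)) ≤ 1 / D ^ 2 := by
  have hder : ∀ r : ℝ, HasDerivAt (fun r : ℝ => -((r / D + 1 / D ^ 2) * Real.exp (-(r * D))))
      (r * Real.exp (-(r * D))) r := by
    intro r
    have h1 : HasDerivAt (fun r : ℝ => r / D + 1 / D ^ 2) (1 / D) r := by
      simpa using ((hasDerivAt_id r).div_const D).add_const (1 / D ^ 2)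
    have h2 : HasDerivAt (fun r : ℝ => Real.exp (-(r * D))) (Real.exp (-(r * D)) * (-(1 * D))) r :=
      (((hasDerivAt_id r).mul_const D).neg).exp
    convert! (h1.mul h2).neg using 1
    field_simp
    ring
  rw [intervalIntegral.integral_eq_sub_of_hasDerivAt (fun r _ => hder r)
    ((by fun_prop : Continuous fun r : ℝ => r * Real.exp (-(r * D))).intervalIntegrable _ _)]
  have : 0 ≤ (1 / D + 1 / D ^ 2) * Real.exp (-(1 * D)) := by positivity
  simp only [zero_div, zero_add, zero_mul, neg_zero, Real.exp_zero, mul_one]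
  linarith

lemma fac_bound {r : ℝ} (hr0 : 0 ≤ r) (hr1 : r ≤ 1) (x : ℂ) :
    ‖1 - (1 - x) * (r : ℂ)‖ ≤ Real.exp (-(r * (1 - ‖x‖))) := by
  have e : 1 - (1 - x) * (r : ℂ) = ((1 - r : ℝ) : ℂ) + (r : ℂ) * x := by push_cast; ring
  have h : ‖1 - (1 - x) * (r : ℂ)‖ ≤ (1 - r) + r * ‖x‖ := by
    rw [e]
    refine (norm_add_le _ _).trans ?_
    rw [norm_mul, Complex.norm_real, Complex.norm_real, Real.norm_of_nonneg (by linarith),
      Real.norm_of_nonneg hr0]
  have h2 := Real.add_one_le_exp (-(r * (1 - ‖x‖)))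
  linarith

lemma prod_bound {ι : Type*} (s : Finset ι) (x : ι → ℂ) {r : ℝ} (hr0 : 0 ≤ r) (hr1 : r ≤ 1) :
    ‖∏ j ∈ s, (1 - (1 - x j) * (r : ℂ))‖ ≤ Real.exp (-(r * ((s.card : ℝ) - ∑ j ∈ s, ‖x j‖))) := by
  rw [norm_prod]
  refine (Finset.prod_le_prod (fun i _ => norm_nonneg _) fun i _ => fac_bound hr0 hr1 (x i)).trans ?_
  rw [← Real.exp_sum]
  apply le_of_eq
  congr 1
  rw [Finset.sum_neg_distrib, ← Finset.mul_sum, Finset.sum_sub_distrib]
  simp

lemma prod_dev {ι : Type*} [DecidableEq ι] (s : Finset ι) (x : ι → ℂ) {r : ℝ} (hr0 : 0 ≤ r) (hr1 : r ≤ 1) :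
    ‖(∏ j ∈ s, (1 - (1 - x j) * (r : ℂ))) - ((1 - r : ℝ) : ℂ) ^ s.card‖
      ≤ r * (∑ j ∈ s, ‖x j‖) * Real.exp (-(r * ((s.card : ℝ) - 1 - ∑ j ∈ s, ‖x j‖))) := by
  induction s using Finset.induction_on with
  | empty => simp
  | insert j s hj ih =>
    rw [Finset.prod_insert hj, Finset.card_insert_of_notMem hj, Finset.sum_insert hj]
    set X := ∑ i ∈ s, ‖x i‖ with hX
    have hX0 : 0 ≤ X := Finset.sum_nonneg fun i _ => norm_nonneg _
    set P := ∏ i ∈ s, (1 - (1 - x i) * (r : ℂ)) with hP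
    have e : (1 - (1 - x j) * (r : ℂ)) * P - ((1 - r : ℝ) : ℂ) ^ (s.card + 1)
        = (1 - (1 - x j) * (r : ℂ)) * (P - ((1 - r : ℝ) : ℂ) ^ s.card)
          + (r : ℂ) * x j * ((1 - r : ℝ) : ℂ) ^ s.card := by
      push_cast; ring
    rw [e]
    have h1 : ‖(1 - (1 - x j) * (r : ℂ)) * (P - ((1 - r : ℝ) : ℂ) ^ s.card)‖
        ≤ Real.exp (-(r * (1 - ‖x j‖))) * (r * X * Real.exp (-(r * ((s.card : ℝ) - 1 - X)))) := by
      rw [norm_mul]
      exact mul_le_mul (fac_bound hr0 hr1 (x j)) ih (norm_nonneg _) (Real.exp_pos _).le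
    have h2 : ‖(r : ℂ) * x j * ((1 - r : ℝ) : ℂ) ^ s.card‖
        ≤ r * ‖x j‖ * Real.exp (-(r * (s.card : ℝ))) := by
      rw [norm_mul, norm_mul, norm_pow, Complex.norm_real, Complex.norm_real,
        Real.norm_of_nonneg hr0, Real.norm_of_nonneg (by linarith)]
      have : (1 - r) ^ s.card ≤ Real.exp (-(r * (s.card : ℝ))) := by
        have h3 : 1 - r ≤ Real.exp (-r) := by have := Real.add_one_le_exp (-r); linarith
        calc (1 - r) ^ s.card ≤ (Real.exp (-r)) ^ s.card := by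
              exact pow_le_pow_left₀ (by linarith) h3 _
          _ = _ := by rw [← Real.exp_nat_mul]; congr 1; ring
      gcongr
    have h4 : Real.exp (-(r * (1 - ‖x j‖))) * (r * X * Real.exp (-(r * ((s.card : ℝ) - 1 - X))))
        = r * X * Real.exp (-(r * (((s.card + 1 : ℕ) : ℝ) - 1 - (‖x j‖ + X)))) := by
      have : Real.exp (-(r * (((s.card + 1 : ℕ) : ℝ) - 1 - (‖x j‖ + X))))
          = Real.exp (-(r * (1 - ‖x j‖))) * Real.exp (-(r * ((s.card : ℝ) - 1 - X))) := by
        rw [← Real.exp_add]; congr 1; push_cast; ring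
      rw [this]; ring
    have h5 : r * ‖x j‖ * Real.exp (-(r * (s.card : ℝ)))
        ≤ r * ‖x j‖ * Real.exp (-(r * (((s.card + 1 : ℕ) : ℝ) - 1 - (‖x j‖ + X)))) := by
      have : -(r * (s.card : ℝ)) ≤ -(r * (((s.card + 1 : ℕ) : ℝ) - 1 - (‖x j‖ + X))) := by
        push_cast
        nlinarith [mul_nonneg hr0 (add_nonneg (norm_nonneg (x j)) hX0)]
      gcongr
    calc _ ≤ _ := norm_add_le _ _
      _ ≤ _ := add_le_add h1 h2
      _ ≤ _ := by rw [h4]; linarith [h5]

variable {ι : Type*} [Fintype ι] [DecidableEq ι]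

lemma cont_fin_prod (s : Finset ι) (x : ι → ℂ) :
    Continuous fun r : ℝ => ∏ j ∈ s, (1 - (1 - x j) * (r : ℂ)) := by fun_prop

/-- Case 1 : all factors moderate. -/
lemma case1 (x : ι → ℂ) {B : ℝ} (hB : ∀ j, ‖1 - x j‖ ≤ B) {X : ℝ}
    (hX : ∑ j, ‖x j‖ ≤ X) (hD : 0 < (Fintype.card ι : ℝ) - 1 - X)
    (hXB : 2 * (X * B) ≤ ((Fintype.card ι : ℝ) - 1 - X) ^ 2) :
    1 / (2 * ((Fintype.card ι : ℝ) + 1 + X)) ≤ ‖∫ r in (0:ℝ)..1, ∏ j, (1 - (1 - x j) * (r : ℂ))‖ := by
  set N : ℝ := (Fintype.card ι : ℝ) with hN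
  set D := N - 1 - X with hDd
  set g : ℝ → ℂ := fun r => ∏ j, (1 - (1 - x j) * (r : ℂ)) with hg
  set G : ι → ℝ → ℂ := fun j r => ∏ i ∈ univ.erase j, (1 - (1 - x i) * (r : ℂ)) with hG
  have hgc : Continuous g := cont_fin_prod univ x
  have hGc : ∀ j, Continuous (G j) := fun j => cont_fin_prod (univ.erase j) x
  have hgG : ∀ j r, g r = (1 - (1 - x j) * (r : ℂ)) * G j r := fun j r => by
    rw [hg, hG]; exact (Finset.mul_prod_erase univ _ (mem_univ j)).symm
  have hX0 : 0 ≤ X := le_trans (Finset.sum_nonneg fun i _ => norm_nonneg _) hX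
  have hder : ∀ r : ℝ, HasDerivAt (fun r : ℝ => ((1 - r : ℝ) : ℂ) * g r)
      (-g r - ((N : ℂ) * g r - ∑ j, x j * G j r)) r := by
    intro r
    have h1 : HasDerivAt (fun r : ℝ => ((1 - r : ℝ) : ℂ)) (-1) r := by
      have : HasDerivAt (fun r : ℝ => (1 - r : ℝ)) (-1) r := by
        simpa using (hasDerivAt_id r).const_sub 1
      simpa using this.ofReal_comp
    have h2 : HasDerivAt g (∑ j, (∏ i ∈ univ.erase j, (1 - (1 - x i) * (r : ℂ))) • (-(1 - x j))) r := by
      have := HasDerivAt.fun_finsetProd (u := (univ : Finset ι))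
        (f := fun j (r : ℝ) => (1 - (1 - x j) * (r : ℂ))) (f' := fun j => -(1 - x j)) (x := r)
        (fun j _ => by
          have h3 : HasDerivAt (fun r : ℝ => (r : ℂ)) 1 r := by
            simpa using (hasDerivAt_id r).ofReal_comp
          simpa using (h3.const_mul (1 - x j)).const_sub 1)
      simpa [hg] using this
    convert! h1.mul h2 using 1
    have e1 : ∀ j, ((1 - r : ℝ) : ℂ) * (G j r * (-(1 - x j))) = -(g r) + x j * G j r := by
      intro j
      rw [hgG j r]; push_cast; ring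
    have e2 : ((1 - r : ℝ) : ℂ) * ∑ j, (∏ i ∈ univ.erase j, (1 - (1 - x i) * (r : ℂ))) • (-(1 - x j))
        = -((N : ℂ) * g r - ∑ j, x j * G j r) := by
      rw [Finset.mul_sum]
      have : ∀ j ∈ (univ : Finset ι), ((1 - r : ℝ) : ℂ) * ((∏ i ∈ univ.erase j, (1 - (1 - x i) * (r : ℂ))) • (-(1 - x j)))
          = -(g r) + x j * G j r := fun j _ => by
        rw [smul_eq_mul]; exact e1 j
      rw [Finset.sum_congr rfl this, Finset.sum_add_distrib]
      simp [hN]
      ring
    rw [e2]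
    ring
  set H := ∫ r in (0:ℝ)..1, g r with hH
  have hcont : Continuous fun r : ℝ => (-g r - ((N : ℂ) * g r - ∑ j, x j * G j r)) := by
    refine hgc.neg.sub ((continuous_const.mul hgc).sub (continuous_finsetSum _ fun j _ => ?_))
    exact continuous_const.mul (hGc j)
  have h1 := intervalIntegral.integral_eq_sub_of_hasDerivAt (a := 0) (b := 1) (fun r _ => hder r)
    (hcont.intervalIntegrable _ _)
  have hg0 : g 0 = 1 := by simp [hg]
  have h2 : (∫ r in (0:ℝ)..1, (-g r - ((N : ℂ) * g r - ∑ j, x j * G j r)))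
      = -H - ((N : ℂ) * H - ∑ j, x j * ∫ r in (0:ℝ)..1, G j r) := by
    rw [intervalIntegral.integral_sub, intervalIntegral.integral_neg, intervalIntegral.integral_sub,
      intervalIntegral.integral_const_mul, intervalIntegral.integral_finsetSum]
    · simp_rw [intervalIntegral.integral_const_mul]; rfl
    · exact fun j _ => (continuous_const.mul (hGc j)).intervalIntegrable _ _
    · exact (continuous_const.mul hgc).intervalIntegrable _ _
    · exact (continuous_finsetSum _ fun j _ => continuous_const.mul (hGc j)).intervalIntegrable _ _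
    · exact hgc.neg.intervalIntegrable _ _
    · exact ((continuous_const.mul hgc).sub
        (continuous_finsetSum _ fun j _ => continuous_const.mul (hGc j))).intervalIntegrable _ _
  rw [h2] at h1
  have h1' : -H - ((N : ℂ) * H - ∑ j, x j * ∫ r in (0:ℝ)..1, G j r) = -1 := by
    rw [h1]; simp [hg0]
  set I : ι → ℂ := fun j => ∫ r in (0:ℝ)..1, (r : ℂ) * G j r with hI
  have h3 : ∀ j, (∫ r in (0:ℝ)..1, G j r) = H + (1 - x j) * I j := by
    intro j
    have : H = (∫ r in (0:ℝ)..1, G j r) - (1 - x j) * I j := by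
      rw [hI, ← intervalIntegral.integral_const_mul, ← intervalIntegral.integral_sub, hH]
      · congr 1; funext r; rw [hgG j r]; ring
      · exact (hGc j).intervalIntegrable _ _
      · exact (continuous_const.mul (Complex.continuous_ofReal.mul (hGc j))).intervalIntegrable _ _
    rw [this]; ring
  have h4 : ((N : ℂ) + 1 - ∑ j, x j) * H = 1 + ∑ j, x j * ((1 - x j) * I j) := by
    have : ∑ j, x j * ∫ r in (0:ℝ)..1, G j r = (∑ j, x j) * H + ∑ j, x j * ((1 - x j) * I j) := by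
      rw [Finset.sum_mul, ← Finset.sum_add_distrib]
      exact Finset.sum_congr rfl fun j _ => by rw [h3 j]; ring
    rw [this] at h1'
    linear_combination -h1'
  have hIb : ∀ j, ‖I j‖ ≤ 1 / D ^ 2 := by
    intro j
    have hb : ∀ r ∈ Set.Icc (0:ℝ) 1, ‖(r : ℂ) * G j r‖ ≤ r * Real.exp (-(r * D)) := by
      intro r hr
      rw [norm_mul, Complex.norm_real, Real.norm_of_nonneg hr.1]
      refine mul_le_mul_of_nonneg_left ((prod_bound _ x hr.1 hr.2).trans ?_) hr.1
      apply Real.exp_le_exp.2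
      have hc : ((univ.erase j).card : ℝ) = N - 1 := by
        rw [Finset.card_erase_of_mem (mem_univ j), Finset.card_univ, hN,
          Nat.cast_sub (Fintype.card_pos_iff.2 ⟨j⟩)]
        simp
      have hs : ∑ i ∈ univ.erase j, ‖x i‖ ≤ X :=
        (Finset.sum_le_sum_of_subset_of_nonneg (Finset.erase_subset _ _)
          (fun i _ _ => norm_nonneg _)).trans hX
      rw [hc, hDd]
      nlinarith [hr.1, hs]
    calc ‖I j‖ ≤ ∫ r in (0:ℝ)..1, r * Real.exp (-(r * D)) := by
          refine intervalIntegral.norm_integral_le_of_norm_le zero_le_one ?_ ?_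
          · exact Filter.Eventually.of_forall fun r hr => hb r ⟨hr.1.le, hr.2⟩
          · exact (by fun_prop : Continuous fun r : ℝ => r * Real.exp (-(r * D))).intervalIntegrable _ _
      _ ≤ _ := int_exp_bound hD
  have h5 : ‖∑ j, x j * ((1 - x j) * I j)‖ ≤ 1 / 2 := by
    calc _ ≤ ∑ j, ‖x j * ((1 - x j) * I j)‖ := norm_sum_le _ _
      _ ≤ ∑ j, ‖x j‖ * (B * (1 / D ^ 2)) := by
          refine Finset.sum_le_sum fun j _ => ?_
          rw [norm_mul, norm_mul]
          have := hB j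
          have h6 := hIb j
          have h7 : ‖1 - x j‖ * ‖I j‖ ≤ B * (1 / D ^ 2) :=
            mul_le_mul this h6 (norm_nonneg _) ((norm_nonneg _).trans this)
          exact mul_le_mul_of_nonneg_left h7 (norm_nonneg _)
      _ = (∑ j, ‖x j‖) * (B * (1 / D ^ 2)) := by rw [Finset.sum_mul]
      _ ≤ 1 / 2 := by
          rcases isEmpty_or_nonempty ι with he | ⟨⟨j0⟩⟩
          · simp
          have hB0 : 0 ≤ B := (norm_nonneg _).trans (hB j0)
          calc (∑ j, ‖x j‖) * (B * (1 / D ^ 2)) ≤ X * (B * (1 / D ^ 2)) := by gcongr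
            _ = (2 * (X * B)) / D ^ 2 / 2 := by ring
            _ ≤ 1 / 2 := by
                have : (2 * (X * B)) / D ^ 2 ≤ 1 := by
                  rw [div_le_one (by positivity)]; exact hXB
                linarith
  have h6 : (1 : ℝ) / 2 ≤ ‖((N : ℂ) + 1 - ∑ j, x j) * H‖ := by
    rw [h4]
    have := norm_sub_norm_le (1 : ℂ) (-(∑ j, x j * ((1 - x j) * I j)))
    rw [norm_one, norm_neg, sub_neg_eq_add] at this
    linarith
  have h7 : ‖(N : ℂ) + 1 - ∑ j, x j‖ ≤ N + 1 + X := by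
    calc _ ≤ ‖(N : ℂ) + 1‖ + ‖∑ j, x j‖ := norm_sub_le _ _
      _ ≤ (N + 1) + X := by
          refine add_le_add ?_ ((norm_sum_le _ _).trans hX)
          have : ((N : ℂ) + 1) = ((N + 1 : ℝ) : ℂ) := by push_cast; rfl
          rw [this, Complex.norm_real, Real.norm_of_nonneg (by positivity)]
  rw [norm_mul] at h6
  have hpos : 0 < N + 1 + X := by positivity
  rw [div_le_iff₀ (by positivity)]
  have h8 : ‖(N : ℂ) + 1 - ∑ j, x j‖ * ‖H‖ ≤ (N + 1 + X) * ‖H‖ :=
    mul_le_mul_of_nonneg_right h7 (norm_nonneg _)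
  linarith

end Pool.Agent.H32R3.PV
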