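import Pool.Agent.H32R3.PV.Core

set_option autoImplicit false
set_option maxHeartbeats 4000000

namespace Pool.Agent.H32R3.PV

open Finset MeasureTheory

variable {ι : Type*} [Fintype ι] [DecidableEq ι]

lemma case2 (x : ι → ℂ) (J : Finset ι) {B K q : ℝ} (hB0 : 0 ≤ B) (hB : ∀ j ∈ J, ‖1 - x j‖ ≤ B)
    (hK : ∑ j ∈ Jᶜ, ‖x j‖ ≤ K) (hq : q ≤ 1)
    (hm : (J.card : ℝ) * (B + 1) ≤ q * ((Jᶜ.card : ℝ) + 2))
    (hD : 0 < (Jᶜ.card : ℝ) - 1 - K - (J.card : ℝ) * (B + 1)) :
    (1 - q) / (2 * ((Jᶜ.card : ℝ) + 1)) - K * (1 / ((Jᶜ.card : ℝ) - 1 - K - (J.card : ℝ) * (B + 1)) ^ 2)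
      ≤ ‖∫ r in (0:ℝ)..1, ∏ j, (1 - (1 - x j) * (r : ℂ))‖ := by
  set L := Jᶜ.card with hL
  set m := J.card with hmd
  set D := (L : ℝ) - 1 - K - (m : ℝ) * (B + 1) with hDd
  have hK0 : 0 ≤ K := le_trans (Finset.sum_nonneg fun i _ => norm_nonneg _) hK
  set g : ℝ → ℂ := fun r => ∏ j ∈ Jᶜ, (1 - (1 - x j) * (r : ℂ)) with hg
  have hgc : Continuous g := by fun_prop
  have hW := walsh_bound (R := B + 1) (μ := (1 - q) / (2 * ((L : ℝ) + 1)) - K * (1 / D ^ 2))
    (by linarith) (m := m) g hgc (by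
      intro z hz
      have hmz : (m : ℝ) * ‖z‖ ≤ (m : ℝ) * (B + 1) := by gcongr
      have h1 := psi0_lower m L q hq z (hmz.trans hm)
      have hc1 : Continuous fun r : ℝ => (1 - z * (r : ℂ)) ^ m * ((1 - r : ℝ) : ℂ) ^ L := by fun_prop
      have hc2 : Continuous fun r : ℝ => (1 - z * (r : ℂ)) ^ m * (g r - ((1 - r : ℝ) : ℂ) ^ L) := by
        fun_prop
      have h2 : (∫ r in (0:ℝ)..1, (1 - z * (r : ℂ)) ^ m * g r)
          = (∫ r in (0:ℝ)..1, (1 - z * (r : ℂ)) ^ m * ((1 - r : ℝ) : ℂ) ^ L)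
            + ∫ r in (0:ℝ)..1, (1 - z * (r : ℂ)) ^ m * (g r - ((1 - r : ℝ) : ℂ) ^ L) := by
        rw [← intervalIntegral.integral_add (hc1.intervalIntegrable _ _) (hc2.intervalIntegrable _ _)]
        congr 1; funext r; ring
      have h3 : ‖∫ r in (0:ℝ)..1, (1 - z * (r : ℂ)) ^ m * (g r - ((1 - r : ℝ) : ℂ) ^ L)‖
          ≤ K * (1 / D ^ 2) := by
        have hb : ∀ r ∈ Set.Ioc (0:ℝ) 1, ‖(1 - z * (r : ℂ)) ^ m * (g r - ((1 - r : ℝ) : ℂ) ^ L)‖
            ≤ K * (r * Real.exp (-(r * D))) := by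
          intro r hr
          rw [norm_mul, norm_pow]
          have e1 : ‖1 - z * (r : ℂ)‖ ^ m ≤ Real.exp (r * ((m : ℝ) * (B + 1))) := by
            have : ‖1 - z * (r : ℂ)‖ ≤ Real.exp (r * ‖z‖) := by
              refine (norm_sub_le _ _).trans ?_
              rw [norm_one, norm_mul, Complex.norm_real, Real.norm_of_nonneg hr.1.le]
              have := Real.add_one_le_exp (r * ‖z‖)
              linarith
            calc ‖1 - z * (r : ℂ)‖ ^ m ≤ (Real.exp (r * ‖z‖)) ^ m :=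
                  pow_le_pow_left₀ (norm_nonneg _) this _
              _ = Real.exp (r * ((m : ℝ) * ‖z‖)) := by rw [← Real.exp_nat_mul]; congr 1; ring
              _ ≤ _ := Real.exp_le_exp.2 (mul_le_mul_of_nonneg_left hmz hr.1.le)
          have e2 := prod_dev Jᶜ x hr.1.le hr.2
          have e3 : r * (∑ j ∈ Jᶜ, ‖x j‖) * Real.exp (-(r * ((L : ℝ) - 1 - ∑ j ∈ Jᶜ, ‖x j‖)))
              ≤ r * K * Real.exp (-(r * ((L : ℝ) - 1 - K))) := by
            have hs0 : 0 ≤ ∑ j ∈ Jᶜ, ‖x j‖ := Finset.sum_nonneg fun i _ => norm_nonneg _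
            have : -(r * ((L : ℝ) - 1 - ∑ j ∈ Jᶜ, ‖x j‖)) ≤ -(r * ((L : ℝ) - 1 - K)) := by
              nlinarith [hr.1]
            have hr0 := hr.1.le
            gcongr
          calc _ ≤ Real.exp (r * ((m : ℝ) * (B + 1))) * (r * K * Real.exp (-(r * ((L : ℝ) - 1 - K)))) :=
                mul_le_mul e1 (e2.trans e3) (norm_nonneg _) (Real.exp_pos _).le
            _ = K * (r * Real.exp (-(r * D))) := by
                have : Real.exp (-(r * D)) = Real.exp (r * ((m : ℝ) * (B + 1)))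
                    * Real.exp (-(r * ((L : ℝ) - 1 - K))) := by
                  rw [← Real.exp_add, hDd]; congr 1; ring
                rw [this]; ring
        calc _ ≤ ∫ r in (0:ℝ)..1, K * (r * Real.exp (-(r * D))) := by
              refine intervalIntegral.norm_integral_le_of_norm_le zero_le_one ?_ ?_
              · exact Filter.Eventually.of_forall fun r hr => hb r hr
              · exact (by fun_prop : Continuous fun r : ℝ =>
                  K * (r * Real.exp (-(r * D)))).intervalIntegrable _ _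
          _ = K * ∫ r in (0:ℝ)..1, (r * Real.exp (-(r * D))) := by
              rw [intervalIntegral.integral_const_mul]
          _ ≤ _ := mul_le_mul_of_nonneg_left (int_exp_bound hD) hK0
      rw [h2]
      have h4 := norm_sub_norm_le (∫ r in (0:ℝ)..1, (1 - z * (r : ℂ)) ^ m * ((1 - r : ℝ) : ℂ) ^ L)
        (-(∫ r in (0:ℝ)..1, (1 - z * (r : ℂ)) ^ m * (g r - ((1 - r : ℝ) : ℂ) ^ L)))
      rw [norm_neg, sub_neg_eq_add] at h4
      linarith) (J.toList.map fun j => 1 - x j) (by simp [hmd]) (by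
      intro a ha
      rw [List.mem_map] at ha
      obtain ⟨j, hj, rfl⟩ := ha
      have := hB j (Finset.mem_toList.1 hj)
      linarith)
  refine hW.trans (le_of_eq ?_)
  congr 2
  funext r
  rw [List.map_map, ← Finset.prod_mul_prod_compl J (fun j => (1 - (1 - x j) * (r : ℂ)))]
  congr 1
  rw [← Finset.prod_map_toList]
  rfl

/-- The main lower bound for the normalised integral of the derivative. -/
lemma core {ε : ℝ} (hε : 0 < ε) (hε1 : ε ≤ 1) (w : ι → ℂ) (b : ℂ)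
    (hN : 100000 * (1 / ε) ^ 6 ≤ (Fintype.card ι : ℝ)) (hw : ∀ j, 1 ≤ ‖w j‖)
    (hS : ∑ j, ‖w j - b‖ ≤ (1 - ε) * ((Fintype.card ι : ℝ) + 1)) :
    ε / (32 * (Fintype.card ι : ℝ)) ≤ ‖∫ r in (0:ℝ)..1, ∏ j, (1 - (b / w j) * (r : ℂ))‖ := by
  set N : ℝ := (Fintype.card ι : ℝ) with hNd
  obtain ⟨y, hy⟩ : ∃ y : ℝ, y = 1 / ε := ⟨_, rfl⟩
  rw [← hy] at hN
  have hεy : ε * y = 1 := by rw [hy]; field_simp
  have hy1 : 1 ≤ y := by rw [hy, le_div_iff₀ hε]; linarith
  have hy0 : 0 < y := by linarith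
  have hp : ∀ a b : ℕ, a ≤ b → y ^ a ≤ y ^ b := fun a b h => pow_le_pow_right₀ hy1 h
  have hN1 : 100000 ≤ N := by
    have := hp 0 6 (by norm_num)
    rw [pow_zero] at this
    linarith
  have hN0 : 0 < N := by linarith
  -- ε N ≥ 100000 y^5
  have hεN : 100000 * y ^ 5 ≤ ε * N := by
    have := mul_le_mul_of_nonneg_left hN hε.le
    have e : ε * (100000 * y ^ 6) = 100000 * y ^ 5 * (ε * y) := by ring
    rw [e, hεy, mul_one] at this
    exact this
  set x : ι → ℂ := fun j => 1 - b / w j with hx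
  have hwn : ∀ j, w j ≠ 0 := fun j h => by have := hw j; rw [h, norm_zero] at this; linarith
  have hx1 : ∀ j, 1 - x j = b / w j := fun j => by rw [hx]; ring
  have hxe : ∀ j, x j = (w j - b) / w j := fun j => by
    rw [hx]; field_simp [hwn j]
  have hxle : ∀ j, ‖x j‖ ≤ ‖w j - b‖ := fun j => by
    rw [hxe j, norm_div, div_le_iff₀ (by linarith [hw j])]
    nlinarith [norm_nonneg (w j - b), hw j]
  have hint : (∫ r in (0:ℝ)..1, ∏ j, (1 - (b / w j) * (r : ℂ)))
      = ∫ r in (0:ℝ)..1, ∏ j, (1 - (1 - x j) * (r : ℂ)) := by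
    congr 1; funext r; exact Finset.prod_congr rfl fun j _ => by rw [hx1 j]
  rw [hint]
  have hBj : ∀ j, ‖1 - x j‖ ≤ ‖b‖ := fun j => by
    rw [hx1 j, norm_div]
    exact div_le_self (norm_nonneg _) (hw j)
  by_cases hcase : ‖b‖ ≤ ε ^ 2 / 16 * N
  · -- case 1
    have hX : ∑ j, ‖x j‖ ≤ (1 - ε) * (N + 1) := (Finset.sum_le_sum fun j _ => hxle j).trans hS
    have hD1 : ε / 2 * N ≤ N - 1 - (1 - ε) * (N + 1) := by
      have h5 := hp 0 5 (by norm_num)
      rw [pow_zero] at h5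
      nlinarith
    have h := case1 x hBj hX (by
        have : 0 < ε / 2 * N := by positivity
        linarith) (by
        have h1 : (1 - ε) * (N + 1) ≤ 2 * N := by nlinarith
        have h2 : (1 - ε) * (N + 1) * ‖b‖ ≤ 2 * N * (ε ^ 2 / 16 * N) :=
          mul_le_mul h1 hcase (norm_nonneg _) (by positivity)
        have h3 : (ε / 2 * N) ^ 2 ≤ (N - 1 - (1 - ε) * (N + 1)) ^ 2 :=
          pow_le_pow_left₀ (by positivity) hD1 2
        calc 2 * ((1 - ε) * (N + 1) * ‖b‖) ≤ 2 * (2 * N * (ε ^ 2 / 16 * N)) := by linarith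
          _ = (ε / 2 * N) ^ 2 := by ring
          _ ≤ _ := h3)
    refine le_trans ?_ h
    rw [div_le_div_iff₀ (by positivity) (by nlinarith)]
    nlinarith
  · -- case 2
    rw [not_le] at hcase
    have hb0 : 0 < ‖b‖ := lt_of_le_of_lt (by positivity) hcase
    set J : Finset ι := univ.filter fun j => ‖w j‖ ≤ ε / 4 * ‖b‖ with hJ
    -- lower bound of b in terms of y : 16 y^2 ‖b‖ > N
    have hbN : N < 16 * y ^ 2 * ‖b‖ := by
      have h1 := mul_lt_mul_of_pos_left hcase (by positivity : 0 < 16 * y ^ 2)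
      have e : 16 * y ^ 2 * (ε ^ 2 / 16 * N) = (ε * y) ^ 2 * N := by ring
      rw [e, hεy] at h1
      linarith
    have hmB0 : (J.card : ℝ) * ((1 - ε / 4) * ‖b‖) ≤ (1 - ε) * (N + 1) := by
      calc (J.card : ℝ) * ((1 - ε / 4) * ‖b‖) = ∑ j ∈ J, ((1 - ε / 4) * ‖b‖) := by
            rw [Finset.sum_const, nsmul_eq_mul]
        _ ≤ ∑ j ∈ J, ‖w j - b‖ := by
            refine Finset.sum_le_sum fun j hj => ?_
            have h1 : ‖w j‖ ≤ ε / 4 * ‖b‖ := (Finset.mem_filter.1 hj).2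
            have h2 := norm_sub_norm_le b (w j)
            rw [norm_sub_rev] at h2
            linarith
        _ ≤ ∑ j, ‖w j - b‖ := Finset.sum_le_sum_of_subset_of_nonneg (Finset.subset_univ _)
            (fun i _ _ => norm_nonneg _)
        _ ≤ _ := hS
    have hmB : (J.card : ℝ) * ‖b‖ ≤ (1 - ε / 2) * (N + 1) := by
      have h1 : (1 - ε) * (N + 1) ≤ (1 - ε / 4) * ((1 - ε / 2) * (N + 1)) := by
        have : (1 - ε) ≤ (1 - ε / 4) * (1 - ε / 2) := by nlinarith
        nlinarith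
      have h2 : (1 - ε / 4) * ((J.card : ℝ) * ‖b‖) ≤ (1 - ε / 4) * ((1 - ε / 2) * (N + 1)) := by
        nlinarith
      exact le_of_mul_le_mul_left h2 (by linarith)
    have hm : (J.card : ℝ) ≤ 32 * y ^ 2 := by
      have h1 : (J.card : ℝ) * ‖b‖ ≤ 2 * N := by nlinarith
      have h2 : (J.card : ℝ) * ‖b‖ ≤ 32 * y ^ 2 * ‖b‖ := by nlinarith
      exact le_of_mul_le_mul_right h2 hb0
    have hcardsum : (J.card : ℝ) + (Jᶜ.card : ℝ) = N := by
      rw [hNd]; exact_mod_cast Finset.card_add_card_compl J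
    have hK : ∑ j ∈ Jᶜ, ‖x j‖ ≤ 128 * y ^ 3 := by
      have h1 : ∀ j ∈ Jᶜ, (ε / 4 * ‖b‖) * ‖x j‖ ≤ ‖w j - b‖ := by
        intro j hj
        have h2 : ε / 4 * ‖b‖ < ‖w j‖ := by
          by_contra hlt
          exact (Finset.mem_compl.1 hj) (Finset.mem_filter.2 ⟨mem_univ j, not_lt.1 hlt⟩)
        have h3 : ‖w j‖ * ‖x j‖ = ‖w j - b‖ := by
          rw [hxe j, norm_div]; field_simp [norm_ne_zero_iff.2 (hwn j)]
        nlinarith [norm_nonneg (x j)]
      have h2 : (ε / 4 * ‖b‖) * ∑ j ∈ Jᶜ, ‖x j‖ ≤ 2 * N := by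
        rw [Finset.mul_sum]
        calc _ ≤ ∑ j ∈ Jᶜ, ‖w j - b‖ := Finset.sum_le_sum h1
          _ ≤ ∑ j, ‖w j - b‖ := Finset.sum_le_sum_of_subset_of_nonneg (Finset.subset_univ _)
            (fun i _ _ => norm_nonneg _)
          _ ≤ (1 - ε) * (N + 1) := hS
          _ ≤ 2 * N := by nlinarith
      have h3 : (ε / 4 * ‖b‖) * (128 * y ^ 3) = 32 * y ^ 2 * ‖b‖ * (ε * y) := by ring
      rw [hεy, mul_one] at h3
      have h4 : (ε / 4 * ‖b‖) * ∑ j ∈ Jᶜ, ‖x j‖ ≤ (ε / 4 * ‖b‖) * (128 * y ^ 3) := by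
        rw [h3]; nlinarith
      exact le_of_mul_le_mul_left h4 (by positivity)
    have hmB1 : (J.card : ℝ) * (‖b‖ + 1) ≤ (1 - ε / 2) * (N + 1) + 32 * y ^ 2 := by nlinarith
    have p2 := hp 2 5 (by norm_num)
    have p3 := hp 3 5 (by norm_num)
    have p0 := hp 0 5 (by norm_num)
    rw [pow_zero] at p0
    have hD1 : ε / 4 * N ≤ (Jᶜ.card : ℝ) - 1 - 128 * y ^ 3 - (J.card : ℝ) * (‖b‖ + 1) := by
      nlinarith
    have h := case2 x J (B := ‖b‖) (K := 128 * y ^ 3) (q := 1 - ε / 4) (norm_nonneg b)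
      (fun j _ => hBj j) hK (by linarith) (by
        have : (1 - ε / 4) * ((Jᶜ.card : ℝ) + 2) ≥ (1 - ε / 4) * (N - 32 * y ^ 2 + 2) := by
          apply mul_le_mul_of_nonneg_left _ (by linarith)
          linarith
        nlinarith) (by
        have : 0 < ε / 4 * N := by positivity
        linarith)
    refine le_trans ?_ h
    have hL : (Jᶜ.card : ℝ) + 1 ≤ 2 * N := by
      have : (0 : ℝ) ≤ (J.card : ℝ) := by positivity
      linarith
    have h1 : ε / (16 * N) ≤ (1 - (1 - ε / 4)) / (2 * ((Jᶜ.card : ℝ) + 1)) := by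
      rw [div_le_div_iff₀ (by positivity) (by positivity)]
      nlinarith
    have h2 : 128 * y ^ 3 * (1 / ((Jᶜ.card : ℝ) - 1 - 128 * y ^ 3 - (J.card : ℝ) * (‖b‖ + 1)) ^ 2)
        ≤ ε / (32 * N) := by
      have h3 : (ε / 4 * N) ^ 2 ≤ ((Jᶜ.card : ℝ) - 1 - 128 * y ^ 3 - (J.card : ℝ) * (‖b‖ + 1)) ^ 2 :=
        pow_le_pow_left₀ (by positivity) hD1 2
      have h4 : (0:ℝ) < (ε / 4 * N) ^ 2 := by positivity
      calc _ ≤ 128 * y ^ 3 * (1 / (ε / 4 * N) ^ 2) := by gcongr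
        _ ≤ ε / (32 * N) := by
            rw [mul_one_div, div_le_div_iff₀ h4 (by positivity)]
            -- 128 y^3 * 32 N ≤ ε * (ε/4 N)^2
            have h5 : ε * (ε / 4 * N) ^ 2 = (ε * N) * (ε * (ε * N)) / 16 := by ring
            rw [h5]
            have h6 : 100000 * y ^ 4 ≤ ε * (ε * N) := by
              have := mul_le_mul_of_nonneg_left hεN hε.le
              have e : ε * (100000 * y ^ 5) = 100000 * y ^ 4 * (ε * y) := by ring
              rw [e, hεy, mul_one] at this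
              exact this
            have h7 : 100000 * y ^ 3 ≤ ε * (ε * (ε * N)) := by
              have := mul_le_mul_of_nonneg_left h6 hε.le
              have e : ε * (100000 * y ^ 4) = 100000 * y ^ 3 * (ε * y) := by ring
              rw [e, hεy, mul_one] at this
              exact this
            have h8 : (ε * N) * (ε * (ε * N)) = N * (ε * (ε * (ε * N))) := by ring
            rw [h8]
            have h9 : N * (100000 * y ^ 3) ≤ N * (ε * (ε * (ε * N))) :=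
              mul_le_mul_of_nonneg_left h7 hN0.le
            nlinarith [mul_pos hN0 (pow_pos hy0 3)]
    have h3 : ε / (16 * N) = ε / (32 * N) + ε / (32 * N) := by field_simp; ring
    linarith

end Pool.Agent.H32R3.PV
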