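import Mathlib

set_option autoImplicit false
set_option maxHeartbeats 4000000

namespace Pool.Agent.H32R3.PV

open Polynomial Real MeasureTheory

/-! ### the integral of `log⁺ (t/ρ)` -/

lemma poslog_int {t T : ℝ} (ht : 0 ≤ t) (hT : t ≤ T) :
    IntervalIntegrable (fun ρ : ℝ => log⁺ (ρ⁻¹ * t)) volume 0 T ∧
      ∫ ρ in (0:ℝ)..T, log⁺ (ρ⁻¹ * t) = t := by
  rcases ht.eq_or_lt with h0 | h0
  · subst h0
    simp
  · have e1 : Set.EqOn (fun ρ : ℝ => log⁺ (ρ⁻¹ * t)) (fun ρ => log t - log ρ) (Set.uIoc 0 t) := by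
      intro ρ hρ
      rw [Set.uIoc_of_le ht] at hρ
      have h1 : 1 ≤ ρ⁻¹ * t := by rw [← div_eq_inv_mul, one_le_div hρ.1]; exact hρ.2
      show log⁺ (ρ⁻¹ * t) = _
      rw [posLog_eq_log (by rw [abs_of_nonneg (by linarith)]; exact h1),
        Real.log_mul (inv_ne_zero hρ.1.ne') h0.ne', Real.log_inv]
      ring
    have e2 : Set.EqOn (fun ρ : ℝ => log⁺ (ρ⁻¹ * t)) (fun _ => (0:ℝ)) (Set.uIoc t T) := by
      intro ρ hρ
      rw [Set.uIoc_of_le hT] at hρ
      have hρ0 : 0 < ρ := h0.trans hρ.1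
      show log⁺ (ρ⁻¹ * t) = 0
      rw [posLog_eq_zero_iff, abs_of_nonneg (by positivity), ← div_eq_inv_mul, div_le_one hρ0]
      exact hρ.1.le
    have i0 : IntervalIntegrable (fun ρ : ℝ => log t - log ρ) volume 0 t :=
      intervalIntegrable_const.sub intervalIntegral.intervalIntegrable_log'
    have i1 : IntervalIntegrable (fun ρ : ℝ => log⁺ (ρ⁻¹ * t)) volume 0 t :=
      (intervalIntegrable_congr e1).2 i0
    have i2 : IntervalIntegrable (fun ρ : ℝ => log⁺ (ρ⁻¹ * t)) volume t T :=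
      (intervalIntegrable_congr e2).2 intervalIntegrable_const
    refine ⟨i1.trans i2, ?_⟩
    rw [← intervalIntegral.integral_add_adjacent_intervals i1 i2,
      intervalIntegral.integral_congr_ae (Filter.Eventually.of_forall fun x hx => e1 hx),
      intervalIntegral.integral_congr_ae (Filter.Eventually.of_forall fun x hx => e2 hx),
      intervalIntegral.integral_sub intervalIntegrable_const intervalIntegral.intervalIntegrable_log',
      integral_log]
    simp

/-! ### circle averages of products -/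

lemma avg_multiset (c : ℂ) {ρ : ℝ} (hρ : ρ ≠ 0) (s : Multiset ℂ) :
    CircleIntegrable (fun z => (s.map fun w => log ‖z - w‖).sum) c ρ ∧
      circleAverage (fun z => (s.map fun w => log ‖z - w‖).sum) c ρ
        = (s.map fun w => (log ρ + log⁺ (ρ⁻¹ * ‖w - c‖))).sum := by
  induction s using Multiset.induction_on with
  | empty =>
    simp only [Multiset.map_zero, Multiset.sum_zero]
    exact ⟨circleIntegrable_const 0 c ρ, circleAverage_const 0 c ρ⟩
  | cons a s ih =>
    simp only [Multiset.map_cons, Multiset.sum_cons]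
    have h1 : CircleIntegrable (fun z : ℂ => log ‖z - a‖) c ρ :=
      circleIntegrable_log_norm_sub_const ρ
    refine ⟨h1.add ih.1, ?_⟩
    have h2 := circleAverage_fun_add (f₁ := fun z : ℂ => log ‖z - a‖)
      (f₂ := fun z => (s.map fun w => log ‖z - w‖).sum) h1 ih.1
    rw [h2, ih.2, circleAverage_log_norm_sub_const_eq_log_radius_add_posLog hρ, norm_sub_rev]

lemma log_norm_eval {p : Polynomial ℂ} (hp : p ≠ 0) {z : ℂ} (hz : p.eval z ≠ 0) :
    log ‖p.eval z‖ = log ‖p.leadingCoeff‖ + (p.roots.map fun w => log ‖z - w‖).sum := by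
  have h := (IsAlgClosed.splits p).eval_eq_prod_roots z
  have hne : ∀ w ∈ p.roots, z - w ≠ 0 := by
    intro w hw h0
    apply hz
    rw [sub_eq_zero.1 h0]
    exact (Polynomial.mem_roots'.1 hw).2
  rw [h, norm_mul, Real.log_mul]
  · congr 1
    have hgen : ∀ s : Multiset ℂ, (∀ w ∈ s, z - w ≠ 0) →
        log ‖(s.map fun w => z - w).prod‖ = (s.map fun w => log ‖z - w‖).sum := by
      intro s
      induction s using Multiset.induction_on with
      | empty => simp
      | cons a s ih =>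
        intro hs
        simp only [Multiset.map_cons, Multiset.prod_cons, Multiset.sum_cons]
        rw [norm_mul, Real.log_mul (norm_ne_zero_iff.2 (hs a (by simp)))
          (norm_ne_zero_iff.2 ?_), ih (fun w hw => hs w (Multiset.mem_cons_of_mem hw))]
        apply Multiset.prod_ne_zero
        intro hx
        obtain ⟨w, hw, hw0⟩ := Multiset.mem_map.1 hx
        exact hs w (Multiset.mem_cons_of_mem hw) hw0
    exact hgen _ hne
  · exact norm_ne_zero_iff.2 (leadingCoeff_ne_zero.2 hp)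
  · rw [h] at hz
    exact norm_ne_zero_iff.2 (right_ne_zero_of_mul hz)

lemma avg_poly {p : Polynomial ℂ} (hp : p ≠ 0) (c : ℂ) {ρ : ℝ} (hρ : 0 < ρ)
    (h : ∀ w ∈ p.roots, ‖w - c‖ ≠ ρ) :
    CircleIntegrable (fun z => log ‖p.eval z‖) c ρ ∧
      circleAverage (fun z => log ‖p.eval z‖) c ρ
        = log ‖p.leadingCoeff‖ + (p.roots.map fun w => (log ρ + log⁺ (ρ⁻¹ * ‖w - c‖))).sum := by
  have hne : ∀ z ∈ Metric.sphere c |ρ|, p.eval z ≠ 0 := by
    intro z hz h0
    rw [abs_of_pos hρ, mem_sphere_iff_norm] at hz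
    exact h z (Polynomial.mem_roots'.2 ⟨hp, h0⟩) hz
  have heq : Set.EqOn (fun z => log ‖p.eval z‖)
      (fun z => log ‖p.leadingCoeff‖ + (p.roots.map fun w => log ‖z - w‖).sum)
      (Metric.sphere c |ρ|) := fun z hz => log_norm_eval hp (hne z hz)
  obtain ⟨i1, a1⟩ := avg_multiset c hρ.ne' p.roots
  have hmero : CircleIntegrable (fun z => log ‖p.eval z‖) c ρ :=
    MeromorphicOn.circleIntegrable_log_norm (f := fun z => p.eval z) (fun z hz =>
      (p.differentiable.analyticAt z).meromorphicAt)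
  refine ⟨hmero, ?_⟩
  rw [circleAverage_congr_sphere heq,
    circleAverage_fun_add (f₁ := fun _ : ℂ => log ‖p.leadingCoeff‖)
      (f₂ := fun z => (p.roots.map fun w => log ‖z - w‖).sum) (circleIntegrable_const _ c ρ) i1,
    circleAverage_const, a1]

/-! ### reflection of the roots outside the circle -/

lemma half_le {v w : ℂ} (hvw : v ≠ w) (h : ‖w‖ ≤ ‖v‖) : 1 / 2 ≤ (v / (v - w)).re := by
  have hne : v - w ≠ 0 := sub_ne_zero.2 hvw
  have hn : 0 < Complex.normSq (v - w) := Complex.normSq_pos.2 hne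
  rw [Complex.div_re, ← add_div, le_div_iff₀ hn]
  have h2 : Complex.normSq w ≤ Complex.normSq v := by
    rw [Complex.normSq_eq_norm_sq, Complex.normSq_eq_norm_sq]
    exact pow_le_pow_left₀ (norm_nonneg _) h 2
  rw [Complex.normSq_apply, Complex.normSq_apply] at h2
  rw [Complex.normSq_apply, Complex.sub_re, Complex.sub_im]
  nlinarith

noncomputable def refl (c : ℂ) (ρ : ℝ) (z : ℂ) : ℂ := by
  classical
  exact if ‖z - c‖ ≤ ρ then z else c + (ρ : ℂ) ^ 2 / (starRingEnd ℂ) (z - c)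

lemma refl_in {c : ℂ} {ρ : ℝ} {z : ℂ} (h : ‖z - c‖ ≤ ρ) : refl c ρ z = z := by
  simp [refl, h]

lemma refl_out {c : ℂ} {ρ : ℝ} {z : ℂ} (h : ρ < ‖z - c‖) :
    refl c ρ z = c + (ρ : ℂ) ^ 2 / (starRingEnd ℂ) (z - c) := by
  simp [refl, not_le.2 h]

lemma refl_lt {c : ℂ} {ρ : ℝ} (hρ : 0 < ρ) {z : ℂ} (hz : ‖z - c‖ ≠ ρ) : ‖refl c ρ z - c‖ < ρ := by
  rcases lt_or_gt_of_ne hz with h | h
  · rw [refl_in h.le]; exact h
  · rw [refl_out h, add_sub_cancel_left, norm_div, norm_pow, Complex.norm_real,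
      Real.norm_of_nonneg hρ.le, RCLike.norm_conj, div_lt_iff₀ (hρ.trans h)]
    nlinarith

lemma refl_term {c : ℂ} {ρ : ℝ} (hρ : 0 < ρ) {z x : ℂ} (hz : ‖z - c‖ ≠ ρ) (hx : ‖x - c‖ = ρ) :
    (((x - c) / (x - z)).im = ((x - c) / (x - refl c ρ z)).im) ∧
      |((x - c) / (x - z)).re| ≤ ((x - c) / (x - refl c ρ z)).re ∧
      ‖x - z‖ = max 1 (ρ⁻¹ * ‖z - c‖) * ‖x - refl c ρ z‖ := by
  rcases lt_or_gt_of_ne hz with h | h
  · rw [refl_in h.le]
    have h1 : 1 / 2 ≤ ((x - c) / ((x - c) - (z - c))).re :=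
      half_le (fun h0 => by rw [← h0, hx] at h; exact lt_irrefl _ h) (by rw [hx]; exact h.le)
    have e : (x - c) - (z - c) = x - z := by ring
    rw [e] at h1
    refine ⟨rfl, ?_, ?_⟩
    · rw [abs_of_nonneg (by linarith)]
    · rw [max_eq_left, one_mul]
      rw [← div_eq_inv_mul, div_le_one hρ]
      exact h.le
  · set u := x - c with hu
    set b := z - c with hb
    have hub : ‖u‖ < ‖b‖ := by rw [hx]; exact h
    have hb0 : b ≠ 0 := fun h0 => by rw [h0, norm_zero] at h; linarith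
    have hcb0 : (starRingEnd ℂ) b ≠ 0 := by simpa using hb0
    have hbu : b ≠ u := fun h0 => by rw [h0] at hub; exact lt_irrefl _ hub
    have hbu' : b - u ≠ 0 := sub_ne_zero.2 hbu
    have hcbu : (starRingEnd ℂ) b - (starRingEnd ℂ) u ≠ 0 := by
      rw [← map_sub]; exact (_root_.map_ne_zero _).2 hbu'
    have hu0 : u ≠ 0 := fun h0 => by rw [h0, norm_zero] at hx; linarith
    have hρu : (ρ : ℂ) ^ 2 = u * (starRingEnd ℂ) u := by
      rw [Complex.mul_conj, Complex.normSq_eq_norm_sq, hx]; push_cast; rfl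
    have e1 : x - z = -(b - u) := by rw [hu, hb]; ring
    have e2 : x - refl c ρ z = u * ((starRingEnd ℂ) b - (starRingEnd ℂ) u) / (starRingEnd ℂ) b := by
      rw [refl_out h, ← hb, hρu]
      have : x - (c + u * (starRingEnd ℂ) u / (starRingEnd ℂ) b)
          = u - u * (starRingEnd ℂ) u / (starRingEnd ℂ) b := by rw [hu]; ring
      rw [this]
      field_simp
    have e3 : u / (x - refl c ρ z) = (starRingEnd ℂ) (b / (b - u)) := by
      rw [e2, map_div₀ (starRingEnd ℂ) b (b - u), map_sub (starRingEnd ℂ) b u]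
      field_simp
    have e4 : u / (x - z) = 1 - b / (b - u) := by
      rw [e1]; field_simp; ring
    have hh : 1 / 2 ≤ (b / (b - u)).re := half_le hbu hub.le
    refine ⟨?_, ?_, ?_⟩
    · rw [e3, e4, Complex.conj_im, Complex.sub_im, Complex.one_im, zero_sub]
    · rw [e3, e4, Complex.conj_re, Complex.sub_re, Complex.one_re, abs_le]
      constructor <;> linarith
    · rw [e1, e2, norm_neg, norm_div, norm_mul, hx, RCLike.norm_conj, ← map_sub, RCLike.norm_conj,
        max_eq_right (by rw [← div_eq_inv_mul, one_le_div hρ]; exact h.le)]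
      have hbn : 0 < ‖b‖ := norm_pos_iff.2 hb0
      field_simp

lemma sum_norm_le (s : Multiset ℂ) (f p : ℂ → ℂ)
    (h : ∀ z ∈ s, (f z).im = (p z).im ∧ |(f z).re| ≤ (p z).re) :
    ‖(s.map f).sum‖ ≤ ‖(s.map p).sum‖ := by
  have key : (s.map f).sum.im = (s.map p).sum.im ∧ |(s.map f).sum.re| ≤ (s.map p).sum.re := by
    induction s using Multiset.induction_on with
    | empty => simp
    | cons a s ih =>
      obtain ⟨i1, i2⟩ := ih (fun z hz => h z (Multiset.mem_cons_of_mem hz))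
      obtain ⟨a1, a2⟩ := h a (Multiset.mem_cons_self a s)
      simp only [Multiset.map_cons, Multiset.sum_cons, Complex.add_im, Complex.add_re]
      exact ⟨by rw [i1, a1], (abs_add_le _ _).trans (add_le_add a2 i2)⟩
  have h1 : ‖(s.map f).sum‖ ^ 2 ≤ ‖(s.map p).sum‖ ^ 2 := by
    rw [Complex.sq_norm, Complex.sq_norm, Complex.normSq_apply, Complex.normSq_apply, key.1]
    have := abs_le.1 key.2
    have h2 : 0 ≤ (s.map p).sum.re := le_trans (abs_nonneg _) key.2
    nlinarith [this.1, this.2]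
  exact (sq_le_sq₀ (norm_nonneg _) (norm_nonneg _)).1 h1

noncomputable def G (c : ℂ) (ρ : ℝ) (F : Polynomial ℂ) : Polynomial ℂ :=
  ((F.roots.map (refl c ρ)).map fun a => X - C a).prod

lemma G_roots (c : ℂ) (ρ : ℝ) (F : Polynomial ℂ) : (G c ρ F).roots = F.roots.map (refl c ρ) :=
  Polynomial.roots_multiset_prod_X_sub_C _

lemma G_monic (c : ℂ) (ρ : ℝ) (F : Polynomial ℂ) : (G c ρ F).Monic :=
  Polynomial.monic_multiset_prod_of_monic _ _ fun a _ => monic_X_sub_C a

lemma G_natDegree (c : ℂ) (ρ : ℝ) (F : Polynomial ℂ) : (G c ρ F).natDegree = F.natDegree := by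
  unfold G
  rw [Polynomial.natDegree_multiset_prod_X_sub_C_eq_card, Multiset.card_map]
  exact (IsAlgClosed.splits F).natDegree_eq_card_roots.symm

lemma prod_norm (c : ℂ) {ρ : ℝ} (hρ : 0 < ρ) {x : ℂ} (hx : ‖x - c‖ = ρ) (s : Multiset ℂ)
    (hs : ∀ z ∈ s, ‖z - c‖ ≠ ρ) :
    ‖(s.map fun a => x - a).prod‖ = (s.map fun z => max 1 (ρ⁻¹ * ‖z - c‖)).prod
      * ‖((s.map (refl c ρ)).map fun a => x - a).prod‖ := by
  induction s using Multiset.induction_on with
  | empty => simp
  | cons a s ih =>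
    have h1 := (refl_term hρ (hs a (Multiset.mem_cons_self a s)) hx).2.2
    have h2 := ih (fun z hz => hs z (Multiset.mem_cons_of_mem hz))
    simp only [Multiset.map_cons, Multiset.prod_cons, norm_mul]
    rw [h1, h2]; ring

lemma deriv_bound {F : Polynomial ℂ} (hF : F ≠ 0) (c : ℂ) {ρ : ℝ} (hρ : 0 < ρ)
    (hs : ∀ z ∈ F.roots, ‖z - c‖ ≠ ρ) {x : ℂ} (hx : ‖x - c‖ = ρ) :
    ‖F.derivative.eval x‖ ≤ ‖F.leadingCoeff‖ * (F.roots.map fun z => max 1 (ρ⁻¹ * ‖z - c‖)).prod
      * ‖(G c ρ F).derivative.eval x‖ := by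
  have hFx : F.eval x ≠ 0 := fun h0 => hs x (Polynomial.mem_roots'.2 ⟨hF, h0⟩) hx
  have hGx : (G c ρ F).eval x ≠ 0 := by
    intro h0
    have : x ∈ (G c ρ F).roots := Polynomial.mem_roots'.2 ⟨(G_monic c ρ F).ne_zero, h0⟩
    rw [G_roots, Multiset.mem_map] at this
    obtain ⟨z, hz, hzx⟩ := this
    have := refl_lt hρ (hs z hz)
    rw [hzx, hx] at this
    exact lt_irrefl _ this
  rw [(IsAlgClosed.splits F).eval_derivative_eq_eval_mul_sum hFx,
    (IsAlgClosed.splits (G c ρ F)).eval_derivative_eq_eval_mul_sum hGx, norm_mul, norm_mul,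
    (IsAlgClosed.splits F).eval_eq_prod_roots x, norm_mul, prod_norm c hρ hx F.roots hs, G_roots]
  have hGe : (G c ρ F).eval x = ((F.roots.map (refl c ρ)).map fun a => x - a).prod := by
    rw [(IsAlgClosed.splits (G c ρ F)).eval_eq_prod_roots x, G_roots, (G_monic c ρ F).leadingCoeff,
      one_mul]
  rw [hGe]
  have hu0 : 0 < ‖x - c‖ := by rw [hx]; exact hρ
  have hsum : ‖(F.roots.map fun z => 1 / (x - z)).sum‖
      ≤ ‖((F.roots.map (refl c ρ)).map fun z => 1 / (x - z)).sum‖ := by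
    have h1 := sum_norm_le F.roots (fun z => (x - c) / (x - z)) (fun z => (x - c) / (x - refl c ρ z))
      (fun z hz => ⟨(refl_term hρ (hs z hz) hx).1, (refl_term hρ (hs z hz) hx).2.1⟩)
    have e1 : (F.roots.map fun z => (x - c) / (x - z)).sum
        = (x - c) * (F.roots.map fun z => 1 / (x - z)).sum := by
      rw [← Multiset.sum_map_mul_left]; congr 1
      exact Multiset.map_congr rfl fun z _ => by ring
    have e2 : (F.roots.map fun z => (x - c) / (x - refl c ρ z)).sum
        = (x - c) * ((F.roots.map (refl c ρ)).map fun z => 1 / (x - z)).sum := by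
      rw [← Multiset.sum_map_mul_left, Multiset.map_map]; congr 1
      exact Multiset.map_congr rfl fun z _ => by simp only [Function.comp_apply]; ring
    rw [e1, e2, norm_mul, norm_mul] at h1
    exact le_of_mul_le_mul_left h1 hu0
  have hL : 0 ≤ (F.roots.map fun z => max 1 (ρ⁻¹ * ‖z - c‖)).prod :=
    Multiset.prod_nonneg fun a ha => by
      obtain ⟨z, _, rfl⟩ := Multiset.mem_map.1 ha
      exact le_trans zero_le_one (le_max_left _ _)
  rw [← mul_assoc, ← mul_assoc]
  gcongr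

lemma log_prod_max (s : Multiset ℂ) (f : ℂ → ℝ) (hf : ∀ z ∈ s, 0 ≤ f z) :
    0 < (s.map fun z => max 1 (f z)).prod ∧
    log (s.map fun z => max 1 (f z)).prod = (s.map fun z => log⁺ (f z)).sum := by
  induction s using Multiset.induction_on with
  | empty => simp
  | cons a s ih =>
    obtain ⟨h1, h2⟩ := ih (fun z hz => hf z (Multiset.mem_cons_of_mem hz))
    simp only [Multiset.map_cons, Multiset.prod_cons, Multiset.sum_cons]
    have h3 : 0 < max 1 (f a) := lt_of_lt_of_le one_pos (le_max_left _ _)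
    refine ⟨mul_pos h3 h1, ?_⟩
    rw [Real.log_mul h3.ne' h1.ne', h2, posLog_eq_log_max_one (hf a (Multiset.mem_cons_self a s))]

lemma avg_ineq {F : Polynomial ℂ} (hn : 0 < F.natDegree) (c : ℂ) {ρ : ℝ} (hρ : 0 < ρ)
    (h1 : ∀ z ∈ F.roots, ‖z - c‖ ≠ ρ) (h2 : ∀ w ∈ F.derivative.roots, ‖w - c‖ ≠ ρ) :
    (F.derivative.roots.map fun w => log⁺ (ρ⁻¹ * ‖w - c‖)).sum
      ≤ (F.roots.map fun z => log⁺ (ρ⁻¹ * ‖z - c‖)).sum := by
  have hF : F ≠ 0 := fun h => by rw [h, natDegree_zero] at hn; exact lt_irrefl _ hn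
  have hF' : F.derivative ≠ 0 := derivative_ne_zero.2 hn.ne'
  have hGn := G_natDegree c ρ F
  have hG' : (G c ρ F).derivative ≠ 0 := derivative_ne_zero.2 (by rw [hGn]; exact hn.ne')
  have hF'x : ∀ x, ‖x - c‖ = ρ → F.derivative.eval x ≠ 0 := fun x hx h0 =>
    h2 x (Polynomial.mem_roots'.2 ⟨hF', h0⟩) hx
  have hG'x : ∀ x, ‖x - c‖ = ρ → (G c ρ F).derivative.eval x ≠ 0 := fun x hx h0 => by
    have h3 := deriv_bound hF c hρ h1 hx
    rw [h0, norm_zero, mul_zero] at h3
    exact hF'x x hx (norm_le_zero_iff.1 h3)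
  have hGball : ∀ w ∈ (G c ρ F).derivative.roots, ‖w - c‖ ≤ ρ := by
    intro w hw
    have hGL := Polynomial.rootSet_derivative_subset_convexHull_rootSet (P := G c ρ F)
      (by rw [← natDegree_pos_iff_degree_pos, hGn]; exact hn)
    have hw1 : w ∈ (G c ρ F).derivative.rootSet ℂ := by
      rw [Polynomial.mem_rootSet]
      refine ⟨hG', ?_⟩
      rw [coe_aeval_eq_eval]
      exact (Polynomial.mem_roots'.1 hw).2
    have hsub : (G c ρ F).rootSet ℂ ⊆ Metric.closedBall c ρ := by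
      intro z hz
      rw [Polynomial.mem_rootSet, coe_aeval_eq_eval] at hz
      have : z ∈ (G c ρ F).roots := Polynomial.mem_roots'.2 hz
      rw [G_roots, Multiset.mem_map] at this
      obtain ⟨y, hy, rfl⟩ := this
      rw [Metric.mem_closedBall, dist_eq_norm]
      exact (refl_lt hρ (h1 y hy)).le
    have := convexHull_min hsub (convex_closedBall c ρ) (hGL hw1)
    rwa [Metric.mem_closedBall, dist_eq_norm] at this
  have hGne : ∀ w ∈ (G c ρ F).derivative.roots, ‖w - c‖ ≠ ρ := fun w hw hx =>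
    hG'x w hx (Polynomial.mem_roots'.1 hw).2
  obtain ⟨i1, a1⟩ := avg_poly hF' c hρ h2
  obtain ⟨i2, a2⟩ := avg_poly hG' c hρ hGne
  obtain ⟨hLpos, hLlog⟩ := log_prod_max F.roots (fun z => ρ⁻¹ * ‖z - c‖) (fun z _ => by positivity)
  have ha : 0 < ‖F.leadingCoeff‖ := norm_pos_iff.2 (leadingCoeff_ne_zero.2 hF)
  have hmono := circleAverage_mono (f₁ := fun z => log ‖F.derivative.eval z‖)
    (f₂ := fun z => log (‖F.leadingCoeff‖ * (F.roots.map fun z => max 1 (ρ⁻¹ * ‖z - c‖)).prod)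
      + log ‖(G c ρ F).derivative.eval z‖) (c := c) (R := ρ) i1
      ((circleIntegrable_const _ c ρ).add i2) (by
      intro x hx
      rw [abs_of_pos hρ, mem_sphere_iff_norm] at hx
      have h3 := deriv_bound hF c hρ h1 hx
      have h4 : 0 < ‖F.derivative.eval x‖ := norm_pos_iff.2 (hF'x x hx)
      have h5 : 0 < ‖(G c ρ F).derivative.eval x‖ := norm_pos_iff.2 (hG'x x hx)
      have h6 := Real.log_le_log h4 h3
      rwa [Real.log_mul (by positivity) h5.ne'] at h6)
  rw [a1, circleAverage_fun_add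
      (f₁ := fun _ : ℂ => log (‖F.leadingCoeff‖ * (F.roots.map fun z => max 1 (ρ⁻¹ * ‖z - c‖)).prod))
      (f₂ := fun z => log ‖(G c ρ F).derivative.eval z‖) (circleIntegrable_const _ c ρ) i2,
    circleAverage_const, a2, Multiset.sum_map_add, Multiset.sum_map_add] at hmono
  have hz : ((G c ρ F).derivative.roots.map fun w => log⁺ (ρ⁻¹ * ‖w - c‖)).sum = 0 := by
    apply Multiset.sum_eq_zero
    intro x hx
    obtain ⟨w, hw, rfl⟩ := Multiset.mem_map.1 hx
    rw [posLog_eq_zero_iff, abs_of_nonneg (by positivity), ← div_eq_inv_mul, div_le_one hρ]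
    exact hGball w hw
  have hc1 : Multiset.card F.derivative.roots = F.natDegree - 1 := by
    rw [← (IsAlgClosed.splits F.derivative).natDegree_eq_card_roots, natDegree_derivative]
  have hc2 : Multiset.card (G c ρ F).derivative.roots = F.natDegree - 1 := by
    rw [← (IsAlgClosed.splits (G c ρ F).derivative).natDegree_eq_card_roots, natDegree_derivative, hGn]
  rw [hz, Multiset.map_const', Multiset.map_const', hc1, hc2, leadingCoeff_derivative,
    leadingCoeff_derivative, (G_monic c ρ F).leadingCoeff, hGn, one_mul, norm_mul,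
    Real.log_mul ha.ne' (by simpa using hn.ne'), Real.log_mul ha.ne' hLpos.ne', hLlog] at hmono
  linarith

lemma sum_int (c : ℂ) (s : Multiset ℂ) {T : ℝ} (hT : ∀ z ∈ s, ‖z - c‖ ≤ T) :
    IntervalIntegrable (fun ρ : ℝ => (s.map fun z => log⁺ (ρ⁻¹ * ‖z - c‖)).sum) volume 0 T ∧
      ∫ ρ in (0:ℝ)..T, (s.map fun z => log⁺ (ρ⁻¹ * ‖z - c‖)).sum = (s.map fun z => ‖z - c‖).sum := by
  induction s using Multiset.induction_on with
  | empty => simp
  | cons a s ih =>
    obtain ⟨i1, e1⟩ := ih (fun z hz => hT z (Multiset.mem_cons_of_mem hz))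
    obtain ⟨i2, e2⟩ := poslog_int (norm_nonneg (a - c)) (hT a (Multiset.mem_cons_self a s))
    simp only [Multiset.map_cons, Multiset.sum_cons]
    refine ⟨i2.add i1, ?_⟩
    rw [intervalIntegral.integral_add i2 i1, e1, e2]

/-- The sum of the distances of the critical points to `c` is at most that of the zeros. -/
theorem sum_crit_le {F : Polynomial ℂ} (hn : 0 < F.natDegree) (c : ℂ) :
    (F.derivative.roots.map fun w => ‖w - c‖).sum ≤ (F.roots.map fun z => ‖z - c‖).sum := by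
  set T : ℝ := (F.roots.map fun z => ‖z - c‖).sum + (F.derivative.roots.map fun w => ‖w - c‖).sum
    with hTd
  have hs0 : ∀ s : Multiset ℂ, 0 ≤ (s.map fun z => ‖z - c‖).sum := fun s =>
    Multiset.sum_nonneg fun x hx => by
      obtain ⟨z, _, rfl⟩ := Multiset.mem_map.1 hx
      exact norm_nonneg _
  have hle : ∀ s : Multiset ℂ, ∀ z ∈ s, ‖z - c‖ ≤ (s.map fun z => ‖z - c‖).sum := by
    intro s z hz
    obtain ⟨t, rfl⟩ := Multiset.exists_cons_of_mem hz
    simp only [Multiset.map_cons, Multiset.sum_cons]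
    linarith [hs0 t]
  have hT1 : ∀ z ∈ F.roots, ‖z - c‖ ≤ T := fun z hz => by
    have := hle _ z hz; have := hs0 F.derivative.roots; linarith
  have hT2 : ∀ z ∈ F.derivative.roots, ‖z - c‖ ≤ T := fun z hz => by
    have := hle _ z hz; have := hs0 F.roots; linarith
  have hT0 : 0 ≤ T := add_nonneg (hs0 _) (hs0 _)
  obtain ⟨i1, e1⟩ := sum_int c F.roots hT1
  obtain ⟨i2, e2⟩ := sum_int c F.derivative.roots hT2
  rw [← e1, ← e2]
  refine intervalIntegral.integral_mono_ae_restrict hT0 i2 i1 ?_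
  have hfin : (({0} : Set ℝ) ∪ (F.roots.map fun z => ‖z - c‖).toFinset
      ∪ (F.derivative.roots.map fun z => ‖z - c‖).toFinset).Finite :=
    ((Set.finite_singleton 0).union (Finset.finite_toSet _)).union (Finset.finite_toSet _)
  have hae : ∀ᵐ ρ : ℝ ∂volume, ρ ∉ (({0} : Set ℝ) ∪ (F.roots.map fun z => ‖z - c‖).toFinset
      ∪ (F.derivative.roots.map fun z => ‖z - c‖).toFinset) :=
    (MeasureTheory.measure_eq_zero_iff_ae_notMem).1 (hfin.measure_zero volume)
  filter_upwards [ae_restrict_of_ae hae, ae_restrict_mem measurableSet_Icc] with ρ hρ1 hρ2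
  rw [Set.mem_union, Set.mem_union, not_or, not_or] at hρ1
  have hρ0 : 0 < ρ := lt_of_le_of_ne hρ2.1 (fun h => hρ1.1.1 (by rw [← h]; rfl))
  refine avg_ineq hn c hρ0 (fun z hz h => hρ1.1.2 ?_) (fun z hz h => hρ1.2 ?_)
  · rw [Finset.mem_coe, Multiset.mem_toFinset, Multiset.mem_map]
    exact ⟨z, hz, h⟩
  · rw [Finset.mem_coe, Multiset.mem_toFinset, Multiset.mem_map]
    exact ⟨z, hz, h⟩

end Pool.Agent.H32R3.PV
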