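import Mathlib

set_option autoImplicit false
set_option maxHeartbeats 4000000

namespace Pool.Agent.H32R3.PV

open Polynomial Finset

lemma norm_ineq1 {R : ℝ} (hR : 0 < R) {z w : ℂ} (hz : ‖z‖ ≤ R) (hw : R ≤ ‖w‖) :
    ‖(R : ℂ) ^ 2 - (starRingEnd ℂ) z * w‖ ≤ R * ‖w - z‖ := by
  have h1 : ‖(R : ℂ) ^ 2 - (starRingEnd ℂ) z * w‖ ^ 2 ≤ (R * ‖w - z‖) ^ 2 := by
    have hz2 : z.re * z.re + z.im * z.im ≤ R ^ 2 := by
      have := Complex.sq_norm z
      rw [Complex.normSq_apply] at this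
      nlinarith [norm_nonneg z]
    have hw2 : R ^ 2 ≤ w.re * w.re + w.im * w.im := by
      have := Complex.sq_norm w
      rw [Complex.normSq_apply] at this
      nlinarith [norm_nonneg w]
    rw [mul_pow, Complex.sq_norm, Complex.sq_norm, Complex.normSq_apply, Complex.normSq_apply]
    have r1 : ((R : ℂ) ^ 2).re = R ^ 2 := by rw [← Complex.ofReal_pow, Complex.ofReal_re]
    have r2 : ((R : ℂ) ^ 2).im = 0 := by rw [← Complex.ofReal_pow, Complex.ofReal_im]
    have e1 : ((R : ℂ) ^ 2 - (starRingEnd ℂ) z * w).re = R ^ 2 - (z.re * w.re + z.im * w.im) := by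
      rw [Complex.sub_re, r1, Complex.mul_re, Complex.conj_re, Complex.conj_im]; ring
    have e2 : ((R : ℂ) ^ 2 - (starRingEnd ℂ) z * w).im = - (z.re * w.im - z.im * w.re) := by
      rw [Complex.sub_im, r2, Complex.mul_im, Complex.conj_re, Complex.conj_im]; ring
    rw [e1, e2, Complex.sub_re, Complex.sub_im]
    nlinarith [mul_nonneg (sub_nonneg.2 hz2) (sub_nonneg.2 hw2)]
  exact (sq_le_sq₀ (norm_nonneg _) (by positivity)).1 h1

lemma norm_ineq2 {R : ℝ} (hR : 0 < R) {z a : ℂ} (hz : ‖z‖ < R) (ha : ‖a‖ < R) :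
    R * ‖z - a‖ < ‖(R : ℂ) ^ 2 - a * (starRingEnd ℂ) z‖ := by
  have h1 : (R * ‖z - a‖) ^ 2 < ‖(R : ℂ) ^ 2 - a * (starRingEnd ℂ) z‖ ^ 2 := by
    have hz2 : z.re * z.re + z.im * z.im < R ^ 2 := by
      have := Complex.sq_norm z
      rw [Complex.normSq_apply] at this
      nlinarith [norm_nonneg z]
    have hw2 : a.re * a.re + a.im * a.im < R ^ 2 := by
      have := Complex.sq_norm a
      rw [Complex.normSq_apply] at this
      nlinarith [norm_nonneg a]
    rw [mul_pow, Complex.sq_norm, Complex.sq_norm, Complex.normSq_apply, Complex.normSq_apply]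
    have r1 : ((R : ℂ) ^ 2).re = R ^ 2 := by rw [← Complex.ofReal_pow, Complex.ofReal_re]
    have r2 : ((R : ℂ) ^ 2).im = 0 := by rw [← Complex.ofReal_pow, Complex.ofReal_im]
    have e1 : ((R : ℂ) ^ 2 - a * (starRingEnd ℂ) z).re = R ^ 2 - (z.re * a.re + z.im * a.im) := by
      rw [Complex.sub_re, r1, Complex.mul_re, Complex.conj_re, Complex.conj_im]; ring
    have e2 : ((R : ℂ) ^ 2 - a * (starRingEnd ℂ) z).im = - (z.re * a.im - z.im * a.re) := by
      rw [Complex.sub_im, r2, Complex.mul_im, Complex.conj_re, Complex.conj_im]; ring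
    rw [e1, e2, Complex.sub_re, Complex.sub_im]
    nlinarith [mul_pos (sub_pos.2 hz2) (sub_pos.2 hw2)]
  exact (sq_lt_sq₀ (by positivity) (norm_nonneg _)).1 h1

lemma multiset_sum_dev (s : Multiset ℂ) (f : ℂ → ℂ) (c : ℂ) (r : ℝ)
    (h : ∀ w ∈ s, ‖f w - c‖ ≤ r) :
    ‖(s.map f).sum - (Multiset.card s : ℂ) * c‖ ≤ (Multiset.card s : ℝ) * r := by
  induction s using Multiset.induction_on with
  | empty => simp
  | cons a s ih =>
    have h1 := ih (fun w hw => h w (Multiset.mem_cons_of_mem hw))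
    have h2 := h a (Multiset.mem_cons_self a s)
    have e : ((a ::ₘ s).map f).sum - (Multiset.card (a ::ₘ s) : ℂ) * c
        = (f a - c) + ((s.map f).sum - (Multiset.card s : ℂ) * c) := by
      simp; ring
    rw [e]
    calc _ ≤ ‖f a - c‖ + ‖(s.map f).sum - (Multiset.card s : ℂ) * c‖ := norm_add_le _ _
      _ ≤ r + (Multiset.card s : ℝ) * r := add_le_add h2 h1
      _ = _ := by simp; ring

lemma laguerre {Q : Polynomial ℂ} {d : ℕ} (hd : Q.natDegree ≤ d) (hd1 : 1 ≤ d) {R : ℝ}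
    (hQ : ∀ z : ℂ, ‖z‖ < R → Q.eval z ≠ 0) {a z : ℂ} (ha : ‖a‖ < R) (hz : ‖z‖ < R) :
    (d : ℂ) * Q.eval z + (a - z) * Q.derivative.eval z ≠ 0 := by
  have hR : 0 < R := lt_of_le_of_lt (norm_nonneg _) hz
  have hq := hQ z hz
  rw [(IsAlgClosed.splits Q).eval_derivative_eq_eval_mul_sum hq]
  set S := (Q.roots.map fun w => 1 / (z - w)).sum with hS
  have key : (d : ℂ) * Q.eval z + (a - z) * (Q.eval z * S)
      = Q.eval z * ((d : ℂ) + (a - z) * S) := by ring
  rw [key]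
  refine mul_ne_zero hq ?_
  have hDpos : 0 < R ^ 2 - ‖z‖ ^ 2 := by nlinarith [norm_nonneg z]
  obtain ⟨D, hD⟩ : ∃ D : ℝ, D = R ^ 2 - ‖z‖ ^ 2 := ⟨_, rfl⟩
  rw [← hD] at hDpos
  have hDC : (D : ℂ) ≠ 0 := by exact_mod_cast hDpos.ne'
  have hzz : (starRingEnd ℂ) z * z = ((‖z‖ ^ 2 : ℝ) : ℂ) := by
    rw [mul_comm, Complex.mul_conj, Complex.normSq_eq_norm_sq]
  have hDz : (D : ℂ) + (starRingEnd ℂ) z * z = (R : ℂ) ^ 2 := by
    rw [hzz, ← Complex.ofReal_add, hD]; push_cast; ring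
  obtain ⟨K, hK⟩ : ∃ K : ℂ, K = (starRingEnd ℂ) z / D := ⟨_, rfl⟩
  have hKn : ‖K‖ ≤ R / D := by
    rw [hK, norm_div, Complex.norm_real, Real.norm_of_nonneg hDpos.le]
    have : ‖(starRingEnd ℂ) z‖ = ‖z‖ := RCLike.norm_conj z
    rw [this]
    gcongr
  have hroot : ∀ w ∈ Q.roots, ‖(1 / (z - w)) - (-K)‖ ≤ R / D := by
    intro w hw
    have hw0 : Q.eval w = 0 := (Polynomial.mem_roots'.1 hw).2
    have hwR : R ≤ ‖w‖ := by
      by_contra hlt
      exact hQ w (not_le.1 hlt) hw0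
    have hne : w - z ≠ 0 := by
      intro h0
      rw [sub_eq_zero.1 h0] at hwR
      linarith
    have hne' : z - w ≠ 0 := by
      intro h0; apply hne; rw [← neg_sub, h0, neg_zero]
    have e : (1 / (z - w)) - (-K) = -(((R : ℂ) ^ 2 - (starRingEnd ℂ) z * w) / ((w - z) * D)) := by
      rw [hK, ← hDz]
      field_simp
      ring
    rw [e, norm_neg, norm_div, norm_mul, Complex.norm_real, Real.norm_of_nonneg hDpos.le]
    have hpos : 0 < ‖w - z‖ := norm_pos_iff.2 hne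
    rw [div_le_div_iff₀ (by positivity) hDpos]
    have := norm_ineq1 hR hz.le hwR
    nlinarith [this, hDpos]
  have hcard : Multiset.card Q.roots ≤ d := (Polynomial.card_roots' Q).trans hd
  have h1 := multiset_sum_dev Q.roots (fun w => 1 / (z - w)) (-K) (R / D) hroot
  rw [← hS] at h1
  have h2 : ‖S - (d : ℂ) * (-K)‖ ≤ (d : ℝ) * (R / D) := by
    have e : S - (d : ℂ) * (-K) = (S - (Multiset.card Q.roots : ℂ) * (-K))
        + (((d - Multiset.card Q.roots : ℕ) : ℝ) : ℂ) * K := by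
      rw [Nat.cast_sub hcard]; push_cast; ring
    rw [e]
    calc _ ≤ ‖S - (Multiset.card Q.roots : ℂ) * (-K)‖
          + ‖(((d - Multiset.card Q.roots : ℕ) : ℝ) : ℂ) * K‖ := norm_add_le _ _
      _ ≤ (Multiset.card Q.roots : ℝ) * (R / D) + ((d - Multiset.card Q.roots : ℕ) : ℝ) * (R / D) := by
          refine add_le_add h1 ?_
          rw [norm_mul, Complex.norm_real, Real.norm_of_nonneg (by positivity)]
          gcongr
      _ = _ := by rw [Nat.cast_sub hcard]; ring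
  have h3 : ‖z - a‖ * (R / D) < ‖1 + (z - a) * K‖ := by
    have e : 1 + (z - a) * K = ((R : ℂ) ^ 2 - a * (starRingEnd ℂ) z) / D := by
      rw [hK, ← hDz]; field_simp; ring
    rw [e, norm_div, Complex.norm_real, Real.norm_of_nonneg hDpos.le, ← mul_div_assoc]
    gcongr
    rw [mul_comm]
    exact norm_ineq2 hR hz ha
  intro h0
  have e : (d : ℂ) * (1 + (z - a) * K) = (z - a) * (S - (d : ℂ) * (-K)) := by
    linear_combination h0
  have hn := congrArg norm e
  rw [norm_mul, norm_mul] at hn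
  have hdn : ‖(d : ℂ)‖ = d := by simp
  rw [hdn] at hn
  have hdp : (0 : ℝ) < d := by exact_mod_cast hd1
  have h4 : ‖z - a‖ * ‖S - (d : ℂ) * (-K)‖ ≤ ‖z - a‖ * ((d : ℝ) * (R / D)) := by gcongr
  have h5 : (d : ℝ) * (‖z - a‖ * (R / D)) < (d : ℝ) * ‖1 + (z - a) * K‖ := by gcongr
  linarith [h4, h5, hn]

/-! ### Walsh coincidence for functionals -/

noncomputable def Phi (d : ℕ) (l : ℕ → ℂ) (z : ℂ) : ℂ :=
  ∑ i ∈ range (d + 1), (d.choose i : ℂ) * (-z) ^ i * l i

noncomputable def PhiPoly (d : ℕ) (l : ℕ → ℂ) : Polynomial ℂ :=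
  ∑ i ∈ range (d + 1), Polynomial.C ((d.choose i : ℂ) * (-1) ^ i * l i) * Polynomial.X ^ i

lemma PhiPoly_eval (d : ℕ) (l : ℕ → ℂ) (z : ℂ) : (PhiPoly d l).eval z = Phi d l z := by
  unfold PhiPoly Phi
  rw [Polynomial.eval_finsetSum]
  refine Finset.sum_congr rfl fun i _ => ?_
  simp only [Polynomial.eval_mul, Polynomial.eval_C, Polynomial.eval_pow, Polynomial.eval_X]
  rw [neg_pow z i]; ring

lemma PhiPoly_natDegree (d : ℕ) (l : ℕ → ℂ) : (PhiPoly d l).natDegree ≤ d := by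
  unfold PhiPoly
  refine Polynomial.natDegree_sum_le_of_forall_le _ _ fun i hi => ?_
  refine (Polynomial.natDegree_C_mul_X_pow_le _ _).trans ?_
  have := Finset.mem_range.1 hi
  omega

lemma Phi_succ (d : ℕ) (l : ℕ → ℂ) (z : ℂ) :
    Phi (d + 1) l z = Phi d l z - z * Phi d (fun i => l (i + 1)) z := by
  unfold Phi
  rw [Finset.sum_range_succ' (fun i => ((d + 1).choose i : ℂ) * (-z) ^ i * l i) (d + 1)]
  have h1 : ∀ i ∈ range (d + 1), ((d + 1).choose (i + 1) : ℂ) * (-z) ^ (i + 1) * l (i + 1)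
      = (d.choose (i + 1) : ℂ) * (-z) ^ (i + 1) * l (i + 1)
        - z * ((d.choose i : ℂ) * (-z) ^ i * l (i + 1)) := by
    intro i _
    rw [Nat.choose_succ_succ, pow_succ]; push_cast; ring
  rw [Finset.sum_congr rfl h1, Finset.sum_sub_distrib, ← Finset.mul_sum]
  have h2 : ∑ i ∈ range (d + 1), (d.choose i : ℂ) * (-z) ^ i * l i
      = ∑ i ∈ range (d + 1), (d.choose (i + 1) : ℂ) * (-z) ^ (i + 1) * l (i + 1)
        + (d.choose 0 : ℂ) * (-z) ^ 0 * l 0 := by
    rw [← Finset.sum_range_succ' (fun i => (d.choose i : ℂ) * (-z) ^ i * l i) (d + 1),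
      Finset.sum_range_succ (fun i => (d.choose i : ℂ) * (-z) ^ i * l i) (d + 1)]
    simp
  rw [h2]
  simp
  ring

lemma PhiPoly_derivative (d : ℕ) (l : ℕ → ℂ) (z : ℂ) :
    (PhiPoly (d + 1) l).derivative.eval z = -((d + 1 : ℕ) : ℂ) * Phi d (fun i => l (i + 1)) z := by
  unfold PhiPoly Phi
  rw [Polynomial.derivative_sum, Polynomial.eval_finsetSum, Finset.sum_range_succ' _ (d + 1), Finset.mul_sum]
  simp only [Polynomial.derivative_C_mul_X_pow, Polynomial.eval_mul, Polynomial.eval_C,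
    Polynomial.eval_pow, Polynomial.eval_X, Nat.cast_zero, mul_zero, zero_mul, add_zero]
  refine Finset.sum_congr rfl fun i _ => ?_
  have h := Nat.add_one_mul_choose_eq d i
  have h' : ((d : ℂ) + 1) * (d.choose i : ℂ) = ((d + 1).choose (i + 1) : ℂ) * ((i : ℂ) + 1) := by
    exact_mod_cast h
  rw [neg_pow z i]
  simp only [Nat.add_sub_cancel]
  push_cast
  rw [pow_succ]
  linear_combination (-((-1) ^ i * l (i + 1) * z ^ i)) * (-h')

lemma Phi_act {d : ℕ} {l : ℕ → ℂ} {R : ℝ} (h : ∀ z : ℂ, ‖z‖ < R → Phi (d + 1) l z ≠ 0)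
    {a : ℂ} (ha : ‖a‖ < R) :
    ∀ z : ℂ, ‖z‖ < R → Phi d (fun i => l i - a * l (i + 1)) z ≠ 0 := by
  intro z hz
  have h1 := laguerre (Q := PhiPoly (d + 1) l) (PhiPoly_natDegree (d + 1) l) (by omega)
    (fun z hz => by rw [PhiPoly_eval]; exact h z hz) ha hz
  rw [PhiPoly_eval, PhiPoly_derivative, Phi_succ] at h1
  have h2 : Phi d (fun i => l i - a * l (i + 1)) z
      = Phi d l z - a * Phi d (fun i => l (i + 1)) z := by
    unfold Phi
    rw [Finset.mul_sum, ← Finset.sum_sub_distrib]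
    exact Finset.sum_congr rfl fun i _ => by ring
  rw [h2]
  intro h0
  apply h1
  linear_combination ((d + 1 : ℕ) : ℂ) * h0

/-- action of a list of factors `1 - a X` on a moment sequence -/
def act : List ℂ → (ℕ → ℂ) → (ℕ → ℂ)
  | [], l => l
  | a :: as, l => act as (fun i => l i - a * l (i + 1))

lemma act_ne_zero {R : ℝ} (hR : 0 < R) : ∀ (as : List ℂ) (l : ℕ → ℂ),
    (∀ z : ℂ, ‖z‖ < R → Phi as.length l z ≠ 0) → (∀ a ∈ as, ‖a‖ < R) → act as l 0 ≠ 0
  | [], l, h, _ => by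
    have := h 0 (by simpa using hR)
    simpa [Phi, act] using this
  | a :: as, l, h, ha => by
    have h1 := Phi_act (d := as.length) (l := l) (R := R) (by simpa using h) (ha a (by simp))
    exact act_ne_zero hR as _ h1 (fun b hb => ha b (List.mem_cons_of_mem _ hb))

end Pool.Agent.H32R3.PV
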