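import Mathlib
import Pool.Agent.H32R3.PV.Core2
import Pool.Agent.H32R3.PV.Der

open MeasureTheory Filter Topology

namespace Pool.Agent.H32R3.PV

/-- A sum over a multiset as a sum over its index type. -/
lemma sum_coe {β : Type*} [AddCommMonoid β] (m : Multiset ℂ) (f : ℂ → β) :
    ∑ j : m, f (j : ℂ) = (m.map f).sum := by
  rw [← Multiset.map_univ m f]
  rfl

lemma prod_coe {β : Type*} [CommMonoid β] (m : Multiset ℂ) (f : ℂ → β) :
    ∏ j : m, f (j : ℂ) = (m.map f).prod := by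
  rw [← Multiset.map_univ m f]
  rfl

/-- The value at `c` as an integral of the derivative over the segment from a root. -/
lemma eval_eq_int (F : Polynomial ℂ) (z0 c : ℂ) (hz : F.IsRoot z0) :
    F.eval c = ∫ r in (0:ℝ)..1, (F.derivative.eval (z0 + (r:ℂ) * (c - z0))) * (c - z0) := by
  have hd : ∀ x ∈ Set.uIcc (0:ℝ) 1, HasDerivAt (fun r : ℝ => F.eval (z0 + (r:ℂ) * (c - z0)))
      ((F.derivative.eval (z0 + (x:ℂ) * (c - z0))) * (c - z0)) x := by
    intro x _
    have h1 : HasDerivAt (fun r : ℝ => z0 + (r:ℂ) * (c - z0)) (c - z0) x := by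
      have h2 : HasDerivAt (fun r : ℝ => (r:ℂ)) 1 x := Complex.ofRealCLM.hasDerivAt
      have h3 := (h2.mul_const (c - z0)).const_add z0
      simpa using h3
    exact (F.hasDerivAt (z0 + (x:ℂ) * (c - z0))).comp x h1
  have hc : Continuous fun x : ℝ => (F.derivative.eval (z0 + (x:ℂ) * (c - z0))) * (c - z0) := by
    fun_prop
  rw [intervalIntegral.integral_eq_sub_of_hasDerivAt hd (hc.intervalIntegrable 0 1)]
  have h0 : F.eval z0 = 0 := hz
  simp [h0]

/-- Norm of the value at `c` is small if the zeros are close to `c` in mean. -/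
lemma eval_upper {F : Polynomial ℂ} (c : ℂ) {h : ℝ} (hh : 0 < h) :
    ‖F.eval c‖ ≤ ‖F.leadingCoeff‖ * (h ^ F.natDegree *
      Real.exp ((F.roots.map fun z => ‖z - c‖).sum / h - F.natDegree)) := by
  rw [(IsAlgClosed.splits F).eval_eq_prod_roots, norm_mul]
  refine mul_le_mul_of_nonneg_left ?_ (norm_nonneg _)
  have hcard : Multiset.card F.roots = F.natDegree :=
    (IsAlgClosed.splits F).natDegree_eq_card_roots.symm
  rw [← hcard]
  induction F.roots using Multiset.induction_on with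
  | empty => simp
  | cons a s ih =>
    simp only [Multiset.map_cons, Multiset.prod_cons, norm_mul, Multiset.sum_cons,
      Multiset.card_cons]
    have h1 : ‖c - a‖ ≤ h * Real.exp (‖a - c‖ / h - 1) := by
      have h2 : ‖a - c‖ / h ≤ Real.exp (‖a - c‖ / h - 1) := by
        have := Real.add_one_le_exp (‖a - c‖ / h - 1)
        linarith
      rw [norm_sub_rev]
      rw [div_le_iff₀ hh] at h2
      linarith
    calc ‖c - a‖ * ‖(s.map fun a => c - a).prod‖
        ≤ (h * Real.exp (‖a - c‖ / h - 1)) * (h ^ (Multiset.card s) *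
            Real.exp ((s.map fun z => ‖z - c‖).sum / h - (Multiset.card s))) := by
          refine mul_le_mul h1 ih (norm_nonneg _) (by positivity)
      _ = h ^ (Multiset.card s + 1) * Real.exp ((‖a - c‖ + (s.map fun z => ‖z - c‖).sum) / h
            - ((Multiset.card s + 1 : ℕ) : ℝ)) := by
          have : Real.exp ((‖a - c‖ + (s.map fun z => ‖z - c‖).sum) / h
            - ((Multiset.card s + 1 : ℕ) : ℝ)) = Real.exp (‖a - c‖ / h - 1) *
            Real.exp ((s.map fun z => ‖z - c‖).sum / h - (Multiset.card s)) := by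
            rw [← Real.exp_add]
            congr 1
            push_cast
            ring
          rw [this]
          ring

/-- The value at `c` in terms of the normalised integral. -/
lemma eval_eq_norm {F : Polynomial ℂ} {N : ℕ} (hF : F.natDegree = N + 1) {h : ℝ} (hh : 0 < h)
    {z0 c : ℂ} (hz0 : F.IsRoot z0) (hcrit : ∀ w ∈ F.derivative.roots, h ≤ ‖w - z0‖) :
    ‖F.leadingCoeff‖ * (h ^ N * ‖c - z0‖ * ‖∫ r in (0:ℝ)..1, ∏ j : F.derivative.roots,
      (1 - (((c - z0) / (h:ℂ)) / (((j:ℂ) - z0) / (h:ℂ))) * (r:ℂ))‖) * ((N:ℝ) + 1) ≤ ‖F.eval c‖ := by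
  have hhC : (h:ℂ) ≠ 0 := by exact_mod_cast hh.ne'
  have hne : ∀ w ∈ F.derivative.roots, w - z0 ≠ 0 := fun w hw => by
    have := hcrit w hw
    intro h0
    rw [h0, norm_zero] at this
    linarith
  have hcard : Multiset.card F.derivative.roots = N := by
    rw [← (IsAlgClosed.splits F.derivative).natDegree_eq_card_roots, Polynomial.natDegree_derivative,
      hF, Nat.add_sub_cancel]
  have hev : ∀ r : ℝ, (F.derivative.eval (z0 + (r:ℂ) * (c - z0))) * (c - z0) =
      (F.leadingCoeff * ((N:ℂ) + 1) * (c - z0) * (F.derivative.roots.map fun w => z0 - w).prod) *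
      ∏ j : F.derivative.roots,
      (1 - (((c - z0) / (h:ℂ)) / (((j:ℂ) - z0) / (h:ℂ))) * (r:ℂ)) := by
    intro r
    rw [prod_coe F.derivative.roots (fun w => 1 - (((c - z0) / (h:ℂ)) / ((w - z0) / (h:ℂ))) * (r:ℂ)),
      (IsAlgClosed.splits F.derivative).eval_eq_prod_roots, Polynomial.leadingCoeff_derivative, hF]
    have : (F.derivative.roots.map fun a => z0 + (r:ℂ) * (c - z0) - a).prod =
        (F.derivative.roots.map fun w => z0 - w).prod * (F.derivative.roots.map fun w =>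
          1 - (((c - z0) / (h:ℂ)) / ((w - z0) / (h:ℂ))) * (r:ℂ)).prod := by
      rw [← Multiset.prod_map_mul]
      congr 1
      refine Multiset.map_congr rfl fun w hw => ?_
      have := hne w hw
      field_simp
      ring
    rw [this]
    push_cast
    ring
  rw [eval_eq_int F z0 c hz0]
  simp_rw [hev]
  rw [intervalIntegral.integral_const_mul, norm_mul, norm_mul, norm_mul, norm_mul]
  have hN1 : ‖(N:ℂ) + 1‖ = (N:ℝ) + 1 := by
    have : (N:ℂ) + 1 = ((N + 1 : ℕ) : ℂ) := by push_cast; ring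
    rw [this, Complex.norm_natCast]
    push_cast; ring
  have hprod : h ^ N ≤ ‖(F.derivative.roots.map fun w => z0 - w).prod‖ := by
    rw [← hcard]
    clear hev hcard
    have := hcrit
    revert this
    generalize F.derivative.roots = s
    intro hs
    induction s using Multiset.induction_on with
    | empty => simp
    | cons a s ih =>
      simp only [Multiset.map_cons, Multiset.prod_cons, norm_mul, Multiset.card_cons]
      rw [pow_succ, mul_comm]
      refine mul_le_mul ?_ (ih fun w hw => hs w (Multiset.mem_cons_of_mem hw)) (by positivity)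
        (norm_nonneg _)
      rw [norm_sub_rev]
      exact hs a (Multiset.mem_cons_self a s)
  rw [hN1]
  set I := ‖∫ r in (0:ℝ)..1, ∏ j : F.derivative.roots,
      (1 - (((c - z0) / (h:ℂ)) / (((j:ℂ) - z0) / (h:ℂ))) * (r:ℂ))‖ with hI
  have hI0 : 0 ≤ I := norm_nonneg _
  have hk : 0 ≤ ‖F.leadingCoeff‖ * ‖c - z0‖ * I * ((N:ℝ) + 1) := by positivity
  have := mul_le_mul_of_nonneg_left hprod hk
  linarith

lemma main_ineq {F : Polynomial ℂ} {N : ℕ} (hF : F.natDegree = N + 1) {ε h : ℝ} (hε : 0 < ε)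
    (hε1 : ε ≤ 1) (hN : 100000 * (1 / ε) ^ 6 ≤ (N:ℝ)) {z0 c : ℂ} (hz0 : F.IsRoot z0) (hh : 0 < h)
    (hcrit : ∀ w ∈ F.derivative.roots, h ≤ ‖w - z0‖)
    (hS : (F.roots.map fun z => ‖z - c‖).sum ≤ (1 - ε) * ((N:ℝ) + 1) * h) : False := by
  classical
  have hcard : Multiset.card F.derivative.roots = N := by
    rw [← (IsAlgClosed.splits F.derivative).natDegree_eq_card_roots, Polynomial.natDegree_derivative,
      hF, Nat.add_sub_cancel]
  have hFc : Fintype.card F.derivative.roots = N := by rw [Multiset.card_coe, hcard]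
  have hhC : (h:ℂ) ≠ 0 := by exact_mod_cast hh.ne'
  have hnh : ‖(h:ℂ)‖ = h := by rw [Complex.norm_real, Real.norm_of_nonneg hh.le]
  have hF0 : F ≠ 0 := by
    rintro rfl
    simp at hF
  have hlc : 0 < ‖F.leadingCoeff‖ := norm_pos_iff.2 (Polynomial.leadingCoeff_ne_zero.2 hF0)
  -- the sum over critical points
  have hsum : ∑ j : F.derivative.roots, ‖((j:ℂ) - z0) / (h:ℂ) - (c - z0) / (h:ℂ)‖ ≤
      (1 - ε) * ((N:ℝ) + 1) := by
    have h1 : ∑ j : F.derivative.roots, ‖((j:ℂ) - z0) / (h:ℂ) - (c - z0) / (h:ℂ)‖ =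
        (F.derivative.roots.map fun w => ‖w - c‖).sum / h := by
      rw [← sum_coe F.derivative.roots fun w => ‖w - c‖, Finset.sum_div]
      refine Finset.sum_congr rfl fun j _ => ?_
      rw [← sub_div, norm_div, hnh]
      congr 2
      ring
    rw [h1, div_le_iff₀ hh]
    exact (sum_crit_le (by omega) c).trans hS
  have hcore := core hε hε1 (fun j : F.derivative.roots => ((j:ℂ) - z0) / (h:ℂ))
    ((c - z0) / (h:ℂ)) (by rw [hFc]; exact hN)
    (fun j => by
      simp only [norm_div, hnh]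
      rw [le_div_iff₀ hh, one_mul]
      exact hcrit j (Multiset.coe_mem)) (by rw [hFc]; exact hsum)
  rw [hFc] at hcore
  have hlow := eval_eq_norm hF hh hz0 hcrit (c := c)
  have hup := eval_upper (F := F) c hh
  set I := ‖∫ r in (0:ℝ)..1, ∏ j : F.derivative.roots,
      (1 - (((c - z0) / (h:ℂ)) / (((j:ℂ) - z0) / (h:ℂ))) * (r:ℂ))‖ with hI
  obtain ⟨y, hy⟩ : ∃ y : ℝ, y = 1 / ε := ⟨_, rfl⟩
  rw [← hy] at hN
  have hεy : ε * y = 1 := by rw [hy]; field_simp
  have hy1 : 1 ≤ y := by rw [hy, le_div_iff₀ hε]; linarith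
  have hy0 : 0 < y := by linarith
  have hN1 : 100000 * y ≤ (N:ℝ) := by
    have h1 : y ≤ y ^ 6 := le_self_pow₀ hy1 (by norm_num)
    linarith
  have hN3 : 100000 * y ^ 3 ≤ (N:ℝ) := by
    have h1 : y ^ 3 ≤ y ^ 6 := pow_le_pow_right₀ hy1 (by norm_num)
    linarith
  have hN0 : 0 < (N:ℝ) := by linarith
  have hεN : 100000 ≤ ε * (N:ℝ) := by
    have := mul_le_mul_of_nonneg_left hN1 hε.le
    calc (100000:ℝ) = ε * (100000 * y) := by rw [mul_left_comm, hεy]; norm_num
      _ ≤ _ := this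
  -- the bound for b
  have hexp : Real.exp ((F.roots.map fun z => ‖z - c‖).sum / h - F.natDegree) ≤
      Real.exp (-(ε * ((N:ℝ) + 1))) := by
    apply Real.exp_le_exp.2
    rw [hF]
    push_cast
    have : (F.roots.map fun z => ‖z - c‖).sum / h ≤ (1 - ε) * ((N:ℝ) + 1) := by
      rw [div_le_iff₀ hh]; exact hS
    linarith
  have hb : ‖c - z0‖ * I * ((N:ℝ) + 1) ≤ h * Real.exp (-(ε * ((N:ℝ) + 1))) := by
    have h1 := hlow.trans hup
    rw [hF] at h1
    have h2 : ‖F.leadingCoeff‖ * h ^ N * (‖c - z0‖ * I * ((N:ℝ) + 1)) ≤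
        ‖F.leadingCoeff‖ * h ^ N * (h * Real.exp (-(ε * ((N:ℝ) + 1)))) := by
      calc ‖F.leadingCoeff‖ * h ^ N * (‖c - z0‖ * I * ((N:ℝ) + 1))
          = ‖F.leadingCoeff‖ * (h ^ N * ‖c - z0‖ * I) * ((N:ℝ) + 1) := by ring
        _ ≤ ‖F.leadingCoeff‖ * (h ^ (N + 1) * Real.exp ((F.roots.map fun z => ‖z - c‖).sum / h - ((N + 1 : ℕ):ℝ))) := h1
        _ ≤ ‖F.leadingCoeff‖ * (h ^ (N + 1) * Real.exp (-(ε * ((N:ℝ) + 1)))) := by
            rw [hF] at hexp
            gcongr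
        _ = _ := by rw [pow_succ]; ring
    exact le_of_mul_le_mul_left h2 (by positivity)
  -- b in terms of beta
  set B := ‖c - z0‖ / h with hB
  have hB0 : 0 ≤ B := by positivity
  have hb2 : B * ε ≤ 32 * Real.exp (-(ε * ((N:ℝ) + 1))) := by
    have h1 : ‖c - z0‖ = B * h := by rw [hB]; field_simp
    rw [h1] at hb
    have h2 : B * (ε / (32 * (N:ℝ))) * ((N:ℝ) + 1) ≤ Real.exp (-(ε * ((N:ℝ) + 1))) := by
      have h3 : h * (B * (ε / (32 * (N:ℝ))) * ((N:ℝ) + 1)) ≤ h * Real.exp (-(ε * ((N:ℝ) + 1))) := by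
        refine le_trans ?_ hb
        calc h * (B * (ε / (32 * (N:ℝ))) * ((N:ℝ) + 1))
            ≤ h * (B * I * ((N:ℝ) + 1)) := by gcongr
          _ = B * h * I * ((N:ℝ) + 1) := by ring
      exact le_of_mul_le_mul_left h3 hh
    have h4 : B * ε ≤ 32 * (B * (ε / (32 * (N:ℝ))) * ((N:ℝ) + 1)) := by
      have : 32 * (B * (ε / (32 * (N:ℝ))) * ((N:ℝ) + 1)) = B * ε + B * ε / N := by
        field_simp
      rw [this]
      have : 0 ≤ B * ε / N := by positivity
      linarith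
    linarith
  -- the triangle inequality
  have htri : (N:ℝ) * (1 - B) ≤ (1 - ε) * ((N:ℝ) + 1) := by
    refine le_trans ?_ hsum
    have h1 : (N:ℝ) * (1 - B) = ∑ j : F.derivative.roots, (1 - B) := by
      rw [Finset.sum_const, Finset.card_univ, hFc, nsmul_eq_mul]
    rw [h1]
    refine Finset.sum_le_sum fun j _ => ?_
    have h2 : 1 ≤ ‖((j:ℂ) - z0) / (h:ℂ)‖ := by
      rw [norm_div, hnh, le_div_iff₀ hh, one_mul]
      exact hcrit j (Multiset.coe_mem)
    have h3 : ‖(c - z0) / (h:ℂ)‖ = B := by rw [norm_div, hnh]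
    have h4 := norm_sub_norm_le (((j:ℂ) - z0) / (h:ℂ)) ((c - z0) / (h:ℂ))
    rw [h3] at h4
    linarith
  -- exponential smallness
  set x := ε * ((N:ℝ) + 1) with hx
  have hx0 : 0 < x := by positivity
  have hexp2 : Real.exp (-x) * x ^ 2 ≤ 2 := by
    have h1 := Real.quadratic_le_exp_of_nonneg hx0.le
    have h2 : x ^ 2 ≤ 2 * Real.exp x := by nlinarith
    calc Real.exp (-x) * x ^ 2 ≤ Real.exp (-x) * (2 * Real.exp x) := by gcongr
      _ = 2 := by rw [mul_left_comm, ← Real.exp_add]; simp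
  have hNB : (N:ℝ) * B ≤ 1 := by
    have h1 : B * ε * x ^ 2 ≤ 64 := by
      calc B * ε * x ^ 2 ≤ 32 * Real.exp (-x) * x ^ 2 := by gcongr
        _ = 32 * (Real.exp (-x) * x ^ 2) := by ring
        _ ≤ 32 * 2 := by gcongr
        _ = 64 := by norm_num
    have h2 : x ^ 2 = ε ^ 2 * ((N:ℝ) + 1) ^ 2 := by rw [hx]; ring
    rw [h2] at h1
    have h3 : ε ^ 3 * (N:ℝ) ≥ 100000 := by
      have h4 := mul_le_mul_of_nonneg_left hN3 (by positivity : 0 ≤ ε ^ 3)
      calc ε ^ 3 * (N:ℝ) ≥ ε ^ 3 * (100000 * y ^ 3) := h4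
        _ = 100000 * (ε * y) ^ 3 := by ring
        _ = 100000 := by rw [hεy]; norm_num
    have h5 : (N:ℝ) * B * 100000 ≤ 64 := by
      calc (N:ℝ) * B * 100000 ≤ (N:ℝ) * B * (ε ^ 3 * (N:ℝ)) := by gcongr
        _ = B * ε * (ε ^ 2 * (N:ℝ) ^ 2) := by ring
        _ ≤ B * ε * (ε ^ 2 * ((N:ℝ) + 1) ^ 2) := by gcongr; linarith
        _ ≤ 64 := h1
    linarith
  have : x ≤ 2 := by
    rw [hx]
    nlinarith
  have : ε * (N:ℝ) ≤ x := by rw [hx]; nlinarith
  linarith


lemma roots_sum_nonneg (s : Multiset ℂ) (c : ℂ) : 0 ≤ (s.map fun z => ‖z - c‖).sum :=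
  Multiset.sum_nonneg fun x hx => by
    obtain ⟨z, _, rfl⟩ := Multiset.mem_map.1 hx
    exact norm_nonneg _

lemma le_roots_sum {s : Multiset ℂ} {z : ℂ} (hz : z ∈ s) (c : ℂ) :
    ‖z - c‖ ≤ (s.map fun z => ‖z - c‖).sum := by
  obtain ⟨t, rfl⟩ := Multiset.exists_cons_of_mem hz
  simp only [Multiset.map_cons, Multiset.sum_cons]
  linarith [roots_sum_nonneg t c]

lemma fine_bound {F : Polynomial ℂ} {N : ℕ} (hF : F.natDegree = N + 1) {ε h : ℝ} (hε : 0 < ε)
    (hε1 : ε ≤ 1) (hN : 100000 * (1 / ε) ^ 6 ≤ (N:ℝ)) {z0 : ℂ} (c : ℂ) (hz0 : F.IsRoot z0)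
    (hh : 0 ≤ h) (hcrit : ∀ w ∈ F.derivative.roots, h ≤ ‖w - z0‖) :
    (1 - ε) * ((N:ℝ) + 1) * h ≤ (F.roots.map fun z => ‖z - c‖).sum := by
  by_contra hcon
  rcases hh.eq_or_lt with h0 | h0
  · rw [← h0, mul_zero] at hcon
    exact hcon (roots_sum_nonneg _ _)
  · exact main_ineq hF hε hε1 hN hz0 h0 hcrit (not_le.1 hcon).le

lemma crude_bound {F : Polynomial ℂ} (hF : 0 < F.natDegree) {z0 w : ℂ} (c : ℂ)
    (hz0 : z0 ∈ F.roots) (hw : w ∈ F.derivative.roots) :
    ‖w - z0‖ ≤ 2 * (F.roots.map fun z => ‖z - c‖).sum := by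
  have h1 := le_roots_sum hz0 c
  have h2 := (le_roots_sum hw c).trans (sum_crit_le hF c)
  have h3 : ‖w - z0‖ ≤ ‖w - c‖ + ‖z0 - c‖ := by
    have := norm_sub_le (w - c) (z0 - c)
    simpa using this
  linarith

lemma t_pow (n : ℕ) (hn : 2 ≤ n) : 0 < (n:ℝ) ^ (-(1 / 6) : ℝ) ∧
    ((n:ℝ) ^ (-(1 / 6) : ℝ)) ^ 6 * (n:ℝ) = 1 := by
  have hn0 : (0:ℝ) < n := by
    have : (2:ℝ) ≤ n := by exact_mod_cast hn
    linarith
  refine ⟨Real.rpow_pos_of_pos hn0 _, ?_⟩
  rw [← Real.rpow_natCast, ← Real.rpow_mul hn0.le]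
  norm_num
  rw [Real.rpow_neg_one]
  field_simp

/-- The inequality for `p = 1` with an explicit constant. -/
theorem dist_bound {F : Polynomial ℂ} (hF : 2 ≤ F.natDegree) {z0 : ℂ} (hz0 : F.IsRoot z0) :
    ∃ w, F.derivative.IsRoot w ∧ ∀ c : ℂ, ‖z0 - w‖ ≤
      (1 + 2 ^ 29 * (F.natDegree : ℝ) ^ (-(1 / 6) : ℝ)) *
        ((F.roots.map fun z => ‖z - c‖).sum / (F.natDegree : ℝ)) := by
  classical
  have hF0 : F ≠ 0 := by
    rintro rfl
    simp at hF
  have hF'0 : F.derivative ≠ 0 := by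
    intro h
    have := Polynomial.derivative_eq_zero.1 h
    omega
  obtain ⟨N, hN⟩ : ∃ N, F.natDegree = N + 1 := ⟨F.natDegree - 1, by omega⟩
  have hcard : Multiset.card F.derivative.roots = N := by
    rw [← (IsAlgClosed.splits F.derivative).natDegree_eq_card_roots, Polynomial.natDegree_derivative,
      hN, Nat.add_sub_cancel]
  have hne : F.derivative.roots.toFinset.Nonempty := by
    rw [Finset.nonempty_iff_ne_empty, Ne, Multiset.toFinset_eq_empty, ← Multiset.card_eq_zero,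
      hcard]
    omega
  obtain ⟨w, hw, hmin⟩ := Finset.exists_min_image F.derivative.roots.toFinset
    (fun w => ‖w - z0‖) hne
  rw [Multiset.mem_toFinset] at hw
  have hcrit : ∀ v ∈ F.derivative.roots, ‖w - z0‖ ≤ ‖v - z0‖ := fun v hv =>
    hmin v (Multiset.mem_toFinset.2 hv)
  refine ⟨w, (Polynomial.mem_roots hF'0).1 hw, fun c => ?_⟩
  rw [norm_sub_rev]
  obtain ⟨ht0, ht6⟩ := t_pow F.natDegree hF
  set t := (F.natDegree : ℝ) ^ (-(1 / 6) : ℝ) with ht
  set S := (F.roots.map fun z => ‖z - c‖).sum with hS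
  have hS0 : 0 ≤ S := roots_sum_nonneg _ _
  have hn2 : (2:ℝ) ≤ (F.natDegree : ℝ) := by exact_mod_cast hF
  have hn0 : (0:ℝ) < (F.natDegree : ℝ) := by linarith
  have hNr : (F.natDegree : ℝ) = (N:ℝ) + 1 := by rw [hN]; push_cast; ring
  by_cases hcase : 16 * t ≤ 1
  · have hε : 0 < 8 * t := by positivity
    have h1 : 100000 * (1 / (8 * t)) ^ 6 ≤ (N:ℝ) := by
      have h2 : 100000 * (1 / (8 * t)) ^ 6 = 100000 / 262144 * (F.natDegree : ℝ) := by
        have : (F.natDegree : ℝ) = 1 / t ^ 6 := by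
          rw [eq_div_iff (by positivity)]; linarith
        rw [this]
        field_simp
        norm_num
      rw [h2]
      linarith
    have h3 := fine_bound hN hε (by linarith) h1 c hz0 (norm_nonneg (w - z0)) hcrit
    rw [← hNr] at h3
    rw [mul_div_assoc', le_div_iff₀ hn0]
    have h4 : 0 ≤ ‖w - z0‖ := norm_nonneg _
    have h5 : ‖w - z0‖ * (F.natDegree : ℝ) ≤ (1 + 16 * t) * S := by
      calc ‖w - z0‖ * (F.natDegree : ℝ) ≤ ((1 + 16 * t) * (1 - 8 * t)) * (‖w - z0‖ * (F.natDegree : ℝ)) := by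
            have : 1 ≤ (1 + 16 * t) * (1 - 8 * t) := by nlinarith
            have h6 : 0 ≤ ‖w - z0‖ * (F.natDegree : ℝ) := by positivity
            nlinarith
        _ = (1 + 16 * t) * ((1 - 8 * t) * (F.natDegree : ℝ) * ‖w - z0‖) := by ring
        _ ≤ _ := by gcongr
    refine h5.trans ?_
    gcongr
    norm_num
  · rw [not_le] at hcase
    have h1 := crude_bound (by omega) c ((Polynomial.mem_roots hF0).2 hz0) hw
    have h2 : (F.natDegree : ℝ) ≤ 16 ^ 6 := by
      have h3 : (F.natDegree : ℝ) ≤ (16 * t) ^ 6 * (F.natDegree : ℝ) := by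
        have : 1 ≤ (16 * t) ^ 6 := one_le_pow₀ hcase.le
        nlinarith
      calc (F.natDegree : ℝ) ≤ (16 * t) ^ 6 * (F.natDegree : ℝ) := h3
        _ = 16 ^ 6 * (t ^ 6 * (F.natDegree : ℝ)) := by ring
        _ = 16 ^ 6 := by rw [ht6, mul_one]
    rw [mul_div_assoc', le_div_iff₀ hn0]
    calc ‖w - z0‖ * (F.natDegree : ℝ) ≤ (2 * S) * 16 ^ 6 := by gcongr
      _ = 2 ^ 25 * S := by ring
      _ ≤ (1 + 2 ^ 29 * t) * S := by
        gcongr
        nlinarith

/-- Power mean inequality for the zeros. -/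
lemma mean_le {F : Polynomial ℂ} (hF : 0 < F.natDegree) {p : ℝ} (hp : 1 ≤ p) (c : ℂ) :
    (F.roots.map fun z => ‖z - c‖).sum / (F.natDegree : ℝ) ≤
      ((F.roots.map fun z => ‖z - c‖ ^ p).sum / (F.natDegree : ℝ)) ^ (1 / p) := by
  classical
  have hn0 : (0:ℝ) < (F.natDegree : ℝ) := by exact_mod_cast hF
  have hcard : Multiset.card F.roots = F.natDegree :=
    (IsAlgClosed.splits F).natDegree_eq_card_roots.symm
  have h := Real.arith_mean_le_rpow_mean (Finset.univ : Finset F.roots)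
    (fun _ => 1 / (F.natDegree : ℝ)) (fun j => ‖(j:ℂ) - c‖) (fun _ _ => by positivity)
    (by
      rw [Finset.sum_const, Finset.card_univ, Multiset.card_coe, hcard, nsmul_eq_mul]
      field_simp) (fun _ _ => norm_nonneg _) hp
  rw [← Finset.mul_sum, ← Finset.mul_sum, sum_coe F.roots fun z => ‖z - c‖,
    sum_coe F.roots fun z => ‖z - c‖ ^ p, one_div_mul_eq_div, one_div_mul_eq_div] at h
  exact h

end Pool.Agent.H32R3.PV
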