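import Pool.Agent.H32R3.PV.Lag

set_option autoImplicit false
set_option maxHeartbeats 4000000

namespace Pool.Agent.H32R3.PV

open Polynomial Finset MeasureTheory

lemma cont_prod (as : List ℂ) : Continuous fun r : ℝ => (as.map fun a => 1 - a * (r : ℂ)).prod := by
  induction as with
  | nil => simpa using continuous_const
  | cons a as ih =>
    simp only [List.map_cons, List.prod_cons]
    exact (by fun_prop : Continuous fun r : ℝ => 1 - a * (r : ℂ)).mul ih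

lemma act_integral (τ : ℂ) : ∀ (as : List ℂ) (g : ℝ → ℂ), Continuous g → ∀ i : ℕ,
    act as (fun i => (∫ r in (0:ℝ)..1, (r : ℂ) ^ i * g r) - if i = 0 then τ else 0) i
      = (∫ r in (0:ℝ)..1, (r : ℂ) ^ i * ((as.map fun a => 1 - a * (r : ℂ)).prod * g r))
        - if i = 0 then τ else 0
  | [], g, _, i => by simp [act]
  | a :: as, g, hg, i => by
    have h1 : (fun i : ℕ => ((∫ r in (0:ℝ)..1, (r : ℂ) ^ i * g r) - if i = 0 then τ else 0)
          - a * ((∫ r in (0:ℝ)..1, (r : ℂ) ^ (i + 1) * g r) - if i + 1 = 0 then τ else 0))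
        = fun i : ℕ => (∫ r in (0:ℝ)..1, (r : ℂ) ^ i * ((1 - a * (r : ℂ)) * g r))
          - if i = 0 then τ else 0 := by
      funext i
      have e : (∫ r in (0:ℝ)..1, (r : ℂ) ^ i * ((1 - a * (r : ℂ)) * g r))
          = (∫ r in (0:ℝ)..1, (r : ℂ) ^ i * g r) - a * ∫ r in (0:ℝ)..1, (r : ℂ) ^ (i + 1) * g r := by
        rw [← intervalIntegral.integral_const_mul, ← intervalIntegral.integral_sub]
        · congr 1; funext r; ring
        · exact (by fun_prop : Continuous fun r : ℝ => (r : ℂ) ^ i * g r).intervalIntegrable _ _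
        · exact (by fun_prop : Continuous fun r : ℝ => a * ((r : ℂ) ^ (i + 1) * g r)).intervalIntegrable _ _
      rw [e]
      simp
      ring
    show act as (fun i => _ - a * _) i = _
    rw [h1, act_integral τ as (fun r => (1 - a * (r : ℂ)) * g r) (by fun_prop) i]
    congr 2
    funext r
    simp only [List.map_cons, List.prod_cons]
    ring

lemma Phi_integral (m : ℕ) (τ : ℂ) (g : ℝ → ℂ) (hg : Continuous g) (z : ℂ) :
    Phi m (fun i => (∫ r in (0:ℝ)..1, (r : ℂ) ^ i * g r) - if i = 0 then τ else 0) z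
      = (∫ r in (0:ℝ)..1, (1 - z * (r : ℂ)) ^ m * g r) - τ := by
  unfold Phi
  have h1 : ∀ r : ℝ, (1 - z * (r : ℂ)) ^ m * g r
      = ∑ i ∈ range (m + 1), ((m.choose i : ℂ) * (-z) ^ i) * ((r : ℂ) ^ i * g r) := by
    intro r
    have : (1 - z * (r : ℂ)) = (-z) * r + 1 := by ring
    rw [this, add_pow, Finset.sum_mul]
    refine Finset.sum_congr rfl fun i _ => ?_
    rw [one_pow, mul_pow]; ring
  simp_rw [h1]
  rw [intervalIntegral.integral_finsetSum]
  · simp_rw [intervalIntegral.integral_const_mul, mul_sub, Finset.sum_sub_distrib]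
    congr 1
    rw [Finset.sum_eq_single 0]
    · simp
    · intro i _ hi; simp [hi]
    · intro h; simp at h
  · intro i _
    exact (by fun_prop : Continuous fun r : ℝ =>
      ((m.choose i : ℂ) * (-z) ^ i) * ((r : ℂ) ^ i * g r)).intervalIntegrable _ _

/-- Walsh coincidence bound for integrals -/
lemma walsh_bound {R μ : ℝ} (hR : 0 < R) {m : ℕ} (g : ℝ → ℂ) (hg : Continuous g)
    (h : ∀ z : ℂ, ‖z‖ < R → μ ≤ ‖∫ r in (0:ℝ)..1, (1 - z * (r : ℂ)) ^ m * g r‖)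
    (as : List ℂ) (hlen : as.length = m) (has : ∀ a ∈ as, ‖a‖ < R) :
    μ ≤ ‖∫ r in (0:ℝ)..1, (as.map fun a => 1 - a * (r : ℂ)).prod * g r‖ := by
  by_contra hlt
  rw [not_le] at hlt
  obtain ⟨τ, hτ⟩ : ∃ τ : ℂ, τ = ∫ r in (0:ℝ)..1, (as.map fun a => 1 - a * (r : ℂ)).prod * g r :=
    ⟨_, rfl⟩
  rw [← hτ] at hlt
  have h1 := act_integral τ as g hg 0
  have h2 := act_ne_zero hR as
    (fun i => (∫ r in (0:ℝ)..1, (r : ℂ) ^ i * g r) - if i = 0 then τ else 0) (by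
      intro z hz
      rw [hlen, Phi_integral m τ g hg z]
      intro h0
      have h3 := h z hz
      rw [sub_eq_zero.1 h0] at h3
      linarith) has
  apply h2
  rw [h1]
  simp [hτ]

/-! ### Enestrom-Kakeya lower bound -/

lemma ek_identity (a : ℕ → ℝ) (ρ : ℝ) (w : ℂ) : ∀ m : ℕ,
    (a 0 : ℂ) - (1 - ρ * w) * ∑ k ∈ range (m + 1), (a k : ℂ) * w ^ k
      = ∑ k ∈ range m, ((ρ * a k - a (k + 1) : ℝ) : ℂ) * w ^ (k + 1)
        + ((ρ * a m : ℝ) : ℂ) * w ^ (m + 1)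
  | 0 => by simp; ring
  | m + 1 => by
    have ih := ek_identity a ρ w m
    rw [Finset.sum_range_succ (fun k => (a k : ℂ) * w ^ k) (m + 1),
      Finset.sum_range_succ (fun k => ((ρ * a k - a (k + 1) : ℝ) : ℂ) * w ^ (k + 1)) m]
    push_cast at ih ⊢
    rw [pow_succ w (m + 1)]
    linear_combination ih

lemma ek_lower (a : ℕ → ℝ) (ρ : ℝ) (hρ : 0 ≤ ρ) (ha : ∀ k, 0 ≤ a k)
    (hd : ∀ k, a (k + 1) ≤ ρ * a k) (w : ℂ) (hw : ρ * ‖w‖ ≤ 1) (m : ℕ) :
    a 0 * (1 - ρ * ‖w‖) ≤ 2 * ‖∑ k ∈ range (m + 1), (a k : ℂ) * w ^ k‖ := by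
  have h1 := ek_identity a ρ w m
  have h2 := ek_identity a ρ ((‖w‖ : ℝ) : ℂ) m
  have h3 : ‖∑ k ∈ range m, ((ρ * a k - a (k + 1) : ℝ) : ℂ) * w ^ (k + 1)
        + ((ρ * a m : ℝ) : ℂ) * w ^ (m + 1)‖
      ≤ ∑ k ∈ range m, (ρ * a k - a (k + 1)) * ‖w‖ ^ (k + 1) + (ρ * a m) * ‖w‖ ^ (m + 1) := by
    refine (norm_add_le _ _).trans (add_le_add ((norm_sum_le _ _).trans ?_) ?_)
    · refine Finset.sum_le_sum fun k _ => ?_
      rw [norm_mul, norm_pow, Complex.norm_real, Real.norm_of_nonneg (by linarith [hd k])]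
    · rw [norm_mul, norm_pow, Complex.norm_real, Real.norm_of_nonneg (mul_nonneg hρ (ha m))]
  have h2' : (a 0) - (1 - ρ * ‖w‖) * ∑ k ∈ range (m + 1), (a k) * ‖w‖ ^ k
      = ∑ k ∈ range m, (ρ * a k - a (k + 1)) * ‖w‖ ^ (k + 1) + (ρ * a m) * ‖w‖ ^ (m + 1) := by
    exact_mod_cast h2
  rw [← h1, ← h2'] at h3
  have h4 : a 0 ≤ ∑ k ∈ range (m + 1), (a k) * ‖w‖ ^ k := by
    have := Finset.single_le_sum (f := fun k => (a k) * ‖w‖ ^ k) (s := range (m + 1))
      (fun k _ => mul_nonneg (ha k) (by positivity)) (Finset.mem_range.2 (Nat.succ_pos m))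
    simpa using this
  have h5 : a 0 * (1 - ρ * ‖w‖) ≤ (1 - ρ * ‖w‖) * ∑ k ∈ range (m + 1), (a k) * ‖w‖ ^ k := by
    rw [mul_comm]
    exact mul_le_mul_of_nonneg_left h4 (by linarith)
  have h6 : ‖(a 0 : ℂ)‖ - ‖(a 0 : ℂ) - (1 - ρ * w) * ∑ k ∈ range (m + 1), (a k : ℂ) * w ^ k‖
      ≤ ‖(1 - ρ * w) * ∑ k ∈ range (m + 1), (a k : ℂ) * w ^ k‖ := by
    have := norm_sub_norm_le (a 0 : ℂ)
      ((a 0 : ℂ) - (1 - ρ * w) * ∑ k ∈ range (m + 1), (a k : ℂ) * w ^ k)
    simpa using this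
  rw [Complex.norm_real, Real.norm_of_nonneg (ha 0), norm_mul] at h6
  have h7 : ‖(1 : ℂ) - ρ * w‖ ≤ 2 := by
    refine (norm_sub_le _ _).trans ?_
    rw [norm_one, norm_mul, Complex.norm_real, Real.norm_of_nonneg hρ]
    linarith
  have h8 : ‖(1 : ℂ) - ρ * w‖ * ‖∑ k ∈ range (m + 1), (a k : ℂ) * w ^ k‖
      ≤ 2 * ‖∑ k ∈ range (m + 1), (a k : ℂ) * w ^ k‖ :=
    mul_le_mul_of_nonneg_right h7 (norm_nonneg _)
  linarith

/-! ### beta integrals -/

noncomputable def bet (L k : ℕ) : ℝ := ∫ r in (0:ℝ)..1, r ^ k * (1 - r) ^ L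

lemma bet_nonneg (L k : ℕ) : 0 ≤ bet L k := by
  refine intervalIntegral.integral_nonneg zero_le_one fun r hr => ?_
  exact mul_nonneg (pow_nonneg hr.1 _) (pow_nonneg (by linarith [hr.2]) _)

lemma bet_zero (L : ℕ) : bet L 0 = 1 / ((L : ℝ) + 1) := by
  unfold bet
  simp only [pow_zero, one_mul]
  rw [intervalIntegral.integral_comp_sub_left (fun x => x ^ L) 1]
  simp

lemma bet_succ (L k : ℕ) : bet L (k + 1) * ((k : ℝ) + L + 2) = ((k : ℝ) + 1) * bet L k := by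
  have hder : ∀ r : ℝ, HasDerivAt (fun r : ℝ => r ^ (k + 1) * (1 - r) ^ (L + 1))
      (((k : ℝ) + 1) * (r ^ k * (1 - r) ^ L) - ((k : ℝ) + L + 2) * (r ^ (k + 1) * (1 - r) ^ L)) r := by
    intro r
    have h1 : HasDerivAt (fun r : ℝ => r ^ (k + 1)) (((k + 1 : ℕ) : ℝ) * r ^ k) r := by
      simpa using hasDerivAt_pow (k + 1) r
    have h2 : HasDerivAt (fun r : ℝ => (1 - r) ^ (L + 1)) (((L + 1 : ℕ) : ℝ) * (1 - r) ^ L * (-1)) r := by
      have h3 : HasDerivAt (fun r : ℝ => 1 - r) (-1) r := by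
        simpa using (hasDerivAt_id r).const_sub 1
      simpa using h3.fun_pow (L + 1)
    convert! h1.mul h2 using 1
    push_cast
    ring
  have h := intervalIntegral.integral_eq_sub_of_hasDerivAt (a := 0) (b := 1) (fun r _ => hder r)
    ((by fun_prop : Continuous fun r : ℝ => ((k : ℝ) + 1) * (r ^ k * (1 - r) ^ L)
      - ((k : ℝ) + L + 2) * (r ^ (k + 1) * (1 - r) ^ L)).intervalIntegrable _ _)
  rw [intervalIntegral.integral_sub, intervalIntegral.integral_const_mul,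
    intervalIntegral.integral_const_mul] at h
  · have h' : ((k : ℝ) + 1) * bet L k - ((k : ℝ) + L + 2) * bet L (k + 1) = 0 := by
      unfold bet
      rw [h]
      simp
    linarith
  · exact (by fun_prop : Continuous fun r : ℝ => ((k : ℝ) + 1) * (r ^ k * (1 - r) ^ L)).intervalIntegrable _ _
  · exact (by fun_prop : Continuous fun r : ℝ =>
      ((k : ℝ) + L + 2) * (r ^ (k + 1) * (1 - r) ^ L)).intervalIntegrable _ _

lemma psi0_lower (m L : ℕ) (q : ℝ) (hq : q ≤ 1) (z : ℂ) (hz : (m : ℝ) * ‖z‖ ≤ q * ((L : ℝ) + 2)) :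
    (1 - q) / (2 * ((L : ℝ) + 1)) ≤ ‖∫ r in (0:ℝ)..1, (1 - z * (r : ℂ)) ^ m * ((1 - r : ℝ) : ℂ) ^ L‖ := by
  have hL2 : (0 : ℝ) < (L : ℝ) + 2 := by positivity
  set ρ : ℝ := (m : ℝ) / ((L : ℝ) + 2) with hρ
  have hρ0 : 0 ≤ ρ := by positivity
  have hρz : ρ * ‖-z‖ ≤ q := by
    rw [norm_neg, hρ, div_mul_eq_mul_div, div_le_iff₀ hL2]; exact hz
  have h1 := ek_lower (fun k => (m.choose k : ℝ) * bet L k) ρ hρ0
    (fun k => mul_nonneg (by positivity) (bet_nonneg L k)) (by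
      intro k
      have hb := bet_succ L k
      have hk : (0 : ℝ) < (k : ℝ) + L + 2 := by positivity
      have hb' : bet L (k + 1) = ((k : ℝ) + 1) * bet L k / ((k : ℝ) + L + 2) := by
        rw [eq_div_iff hk.ne']; exact hb
      show (m.choose (k + 1) : ℝ) * bet L (k + 1) ≤ ρ * ((m.choose k : ℝ) * bet L k)
      rw [hb']
      have hc : (m.choose (k + 1) : ℝ) * ((k : ℝ) + 1) ≤ (m : ℝ) * (m.choose k : ℝ) := by
        have := Nat.choose_succ_right_eq m k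
        have h' : (m.choose (k + 1) : ℝ) * ((k : ℝ) + 1) = (m.choose k : ℝ) * ((m - k : ℕ) : ℝ) := by
          exact_mod_cast this
        rw [h', mul_comm]
        gcongr
        exact Nat.sub_le m k
      have hbn := bet_nonneg L k
      calc (m.choose (k + 1) : ℝ) * (((k : ℝ) + 1) * bet L k / ((k : ℝ) + L + 2))
          = ((m.choose (k + 1) : ℝ) * ((k : ℝ) + 1)) * bet L k / ((k : ℝ) + L + 2) := by ring
        _ ≤ ((m : ℝ) * (m.choose k : ℝ)) * bet L k / ((L : ℝ) + 2) := by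
            gcongr
            linarith [(by positivity : (0:ℝ) ≤ k)]
        _ = _ := by rw [hρ]; ring) (-z) (hρz.trans hq) m
  have h2 : (∫ r in (0:ℝ)..1, (1 - z * (r : ℂ)) ^ m * ((1 - r : ℝ) : ℂ) ^ L)
      = ∑ k ∈ range (m + 1), (((m.choose k : ℝ) * bet L k : ℝ) : ℂ) * (-z) ^ k := by
    have e1 : ∀ r : ℝ, (1 - z * (r : ℂ)) ^ m * ((1 - r : ℝ) : ℂ) ^ L
        = ∑ i ∈ range (m + 1), ((m.choose i : ℂ) * (-z) ^ i) * (((r ^ i * (1 - r) ^ L : ℝ)) : ℂ) := by
      intro r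
      have : (1 - z * (r : ℂ)) = (-z) * r + 1 := by ring
      rw [this, add_pow, Finset.sum_mul]
      refine Finset.sum_congr rfl fun i _ => ?_
      rw [one_pow, mul_pow]; push_cast; ring
    simp_rw [e1]
    rw [intervalIntegral.integral_finsetSum]
    · refine Finset.sum_congr rfl fun i _ => ?_
      rw [intervalIntegral.integral_const_mul, intervalIntegral.integral_ofReal]
      unfold bet
      push_cast
      ring
    · intro i _
      refine Continuous.intervalIntegrable ?_ _ _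
      exact continuous_const.mul (Complex.continuous_ofReal.comp (by fun_prop))
  rw [h2]
  simp only [Nat.choose_zero_right, Nat.cast_one, one_mul, bet_zero] at h1
  rw [div_le_iff₀ (by positivity)]
  have h3 : 1 / ((L : ℝ) + 1) * (1 - q) ≤ 1 / ((L : ℝ) + 1) * (1 - ρ * ‖-z‖) := by
    gcongr
  have h4 := h3.trans h1
  rw [one_div, inv_mul_le_iff₀ (by positivity)] at h4
  linarith

end Pool.Agent.H32R3.PV
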